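import Pool.Agent.H34x.NT.Count

/-!
# Pairs of arguments at which two polynomials have no common prime factor
-/

set_option autoImplicit false

namespace Pool.Agent.H34x.KF

open Finset Polynomial

/-- the arguments at which a monic polynomial is divisible by a prime -/
theorem card_roots_mod {P : ℤ[X]} (hP : P.Monic) {t : ℤ} {q : ℕ} (hq : q.Prime)
    (ht : ¬ (q : ℤ) ∣ t) (J : ℕ) :
    ((range J).filter fun i : ℕ => (q : ℤ) ∣ P.eval (t * i)).card ≤
      P.natDegree * (J / q + 1) := by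
  have := Fact.mk hq
  set f := Int.castRingHom (ZMod q) with hf
  set R : Finset (ZMod q) := (P.map f).roots.toFinset with hR
  have hR1 : R.card ≤ P.natDegree :=
    (Multiset.toFinset_card_le _).trans ((card_roots' _).trans natDegree_map_le)
  have hPm : P.map f ≠ 0 := (hP.map f).ne_zero
  have h1 : ((range J).filter fun i : ℕ => (q : ℤ) ∣ P.eval (t * i)).card ≤
      (R ×ˢ range (J / q + 1)).card := by
    apply Finset.card_le_card_of_injOn (fun i : ℕ => (((t * (i : ℤ) : ℤ) : ZMod q), i / q))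
    · intro i hi
      rw [mem_coe, mem_filter, mem_range] at hi
      rw [mem_coe, mem_product]
      refine ⟨?_, ?_⟩
      · rw [hR, Multiset.mem_toFinset, mem_roots hPm, IsRoot.def]
        have h2 := eval_intCast_map f P (t * i)
        rw [h2]
        rw [hf, eq_intCast, ZMod.intCast_zmod_eq_zero_iff_dvd]
        exact hi.2
      · rw [mem_range]
        exact Nat.lt_succ_of_le (Nat.div_le_div_right hi.1.le)
    · intro i _ j _ hij
      simp only [Prod.mk.injEq] at hij
      obtain ⟨h2, h3⟩ := hij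
      have h4 : ((q : ℕ) : ℤ) ∣ t * i - t * j := by
        rw [← ZMod.intCast_zmod_eq_zero_iff_dvd]
        push_cast at h2 ⊢
        rw [h2, sub_self]
      rw [← mul_sub] at h4
      rcases (Nat.prime_iff_prime_int.1 hq).dvd_or_dvd h4 with h5 | h5
      · exact absurd h5 ht
      · exact Pool.Agent.H34x.NT.eq_of_div_eq h5 h3
  refine h1.trans ?_
  rw [card_product, card_range]
  exact Nat.mul_le_mul_right _ hR1

open scoped Classical in
/-- **Pairs of arguments without common prime factor.** -/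
theorem exists_pair {d J P0 X ω : ℕ} (hd : 1 ≤ d) (hP0 : 16 * d ^ 2 ≤ P0)
    (hJ : 4 * (1 + d * ω) ≤ J) {F G : ℤ[X]} (hF : F.Monic) (hG : G.Monic)
    (hFd : F.natDegree ≤ d) (hGd : G.natDegree ≤ d) {t : ℤ}
    (hone : ∀ i j : ℕ, F.eval (t * i) = 0 → F.eval (t * j) = 0 → i = j)
    (hX : ∀ i : ℕ, i < J → (F.eval (t * i)).natAbs ≤ X) (hω : X < J ^ (ω + 1)) :
    ∃ i j : ℕ, i < J ∧ j < J ∧ F.eval (t * i) ≠ 0 ∧ ∀ q : ℕ, q.Prime → P0 < q → ¬ (q : ℤ) ∣ t →
      (q : ℤ) ∣ F.eval (t * i) → ¬ (q : ℤ) ∣ G.eval (t * j) := by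
  by_contra hcon
  push Not at hcon
  have hJ0 : 0 < J := by omega
  set DF : ℕ → Finset ℕ := fun q => (range J).filter fun i : ℕ => (q : ℤ) ∣ F.eval (t * i)
    with hDF
  set DG : ℕ → Finset ℕ := fun q => (range J).filter fun i : ℕ => (q : ℤ) ∣ G.eval (t * i)
    with hDG
  set S : Finset ℕ := (Ioc P0 J).filter fun q => q.Prime ∧ ¬ (q : ℤ) ∣ t with hS
  set B0 : Finset (ℕ × ℕ) := ((range J).filter fun i : ℕ => F.eval (t * i) = 0) ×ˢ range J
    with hB0
  set B1 : Finset (ℕ × ℕ) := S.biUnion fun q => DF q ×ˢ DG q with hB1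
  set T : ℕ → Finset ℕ := fun i => ((F.eval (t * i)).natAbs.primeFactors.filter
    fun q => J < q).filter fun q => ¬ (q : ℤ) ∣ t with hT
  set B2 : Finset (ℕ × ℕ) := ((range J).filter fun i : ℕ => F.eval (t * i) ≠ 0).biUnion fun i =>
    (T i).biUnion fun q => {i} ×ˢ DG q with hB2
  have hsub : range J ×ˢ range J ⊆ (B0 ∪ B2) ∪ B1 := by
    rintro ⟨i, j⟩ hij
    rw [mem_product, mem_range, mem_range] at hij
    obtain ⟨hi, hj⟩ := hij
    simp only at hi hj
    rw [mem_union, mem_union]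
    by_cases h0 : F.eval (t * i) = 0
    · left; left
      rw [hB0, mem_product, mem_filter, mem_range, mem_range]
      exact ⟨⟨hi, h0⟩, hj⟩
    · obtain ⟨q, hq, hq0, hqt, hqF, hqG⟩ := hcon i j hi hj h0
      by_cases hqJ : q ≤ J
      · right
        rw [hB1, mem_biUnion]
        refine ⟨q, ?_, ?_⟩
        · rw [hS, mem_filter, mem_Ioc]
          exact ⟨⟨hq0, hqJ⟩, hq, hqt⟩
        · rw [mem_product]
          refine ⟨?_, ?_⟩
          · simp only [hDF]
            rw [mem_filter, mem_range]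
            exact ⟨hi, hqF⟩
          · simp only [hDG]
            rw [mem_filter, mem_range]
            exact ⟨hj, hqG⟩
      · left; right
        rw [hB2, mem_biUnion]
        refine ⟨i, ?_, ?_⟩
        · rw [mem_filter, mem_range]
          exact ⟨hi, h0⟩
        · rw [mem_biUnion]
          refine ⟨q, ?_, ?_⟩
          · simp only [hT]
            rw [mem_filter, mem_filter, Nat.mem_primeFactors]
            exact ⟨⟨⟨hq, Int.natCast_dvd.1 hqF, Int.natAbs_ne_zero.2 h0⟩, by omega⟩, hqt⟩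
          · rw [mem_product]
            refine ⟨mem_singleton_self _, ?_⟩
            simp only [hDG]
            rw [mem_filter, mem_range]
            exact ⟨hj, hqG⟩
  have hcF : ∀ q : ℕ, q.Prime → ¬ (q : ℤ) ∣ t → (DF q).card ≤ d * (J / q + 1) := fun q hq ht =>
    (card_roots_mod hF hq ht J).trans (Nat.mul_le_mul_right _ hFd)
  have hcG : ∀ q : ℕ, q.Prime → ¬ (q : ℤ) ∣ t → (DG q).card ≤ d * (J / q + 1) := fun q hq ht =>
    (card_roots_mod hG hq ht J).trans (Nat.mul_le_mul_right _ hGd)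
  have c0 : B0.card ≤ J := by
    rw [hB0, card_product, card_range]
    have : ((range J).filter fun i : ℕ => F.eval (t * i) = 0).card ≤ 1 := by
      rw [Finset.card_le_one]
      intro i hi j hj
      rw [mem_filter] at hi hj
      exact hone i j hi.2 hj.2
    calc _ ≤ 1 * J := Nat.mul_le_mul_right _ this
      _ = J := one_mul _
  have c2 : B2.card ≤ J * (ω * d) := by
    rw [hB2]
    refine card_biUnion_le.trans ?_
    have h1 : ∀ i ∈ (range J).filter fun i : ℕ => F.eval (t * i) ≠ 0,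
        ((T i).biUnion fun q => {i} ×ˢ DG q).card ≤ ω * d := by
      intro i hi
      rw [mem_filter, mem_range] at hi
      refine card_biUnion_le.trans ?_
      have h2 : ∀ q ∈ T i, (({i} : Finset ℕ) ×ˢ DG q).card ≤ d := by
        intro q hq
        simp only [hT] at hq
        rw [mem_filter, mem_filter, Nat.mem_primeFactors] at hq
        rw [card_product, card_singleton, one_mul]
        have h3 := hcG q hq.1.1.1 hq.2
        rwa [Nat.div_eq_of_lt hq.1.2, zero_add, mul_one] at h3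
      refine (Finset.sum_le_card_nsmul _ _ _ h2).trans ?_
      rw [smul_eq_mul]
      apply Nat.mul_le_mul_right
      simp only [hT]
      refine (card_le_card (filter_subset _ _)).trans ?_
      exact Pool.Agent.H34x.NT.card_large (Int.natAbs_ne_zero.2 hi.2) (hX i hi.1) hω hJ0
    refine (Finset.sum_le_card_nsmul _ _ _ h1).trans ?_
    rw [smul_eq_mul]
    apply Nat.mul_le_mul_right
    exact (card_le_card (filter_subset _ _)).trans (card_range J).le
  have hP0pos : 0 < P0 := by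
    have : 0 < d ^ 2 := by positivity
    omega
  have hJR : (0 : ℝ) < J := by exact_mod_cast hJ0
  have hPR : (0 : ℝ) < P0 := by exact_mod_cast hP0pos
  have c1 : (B1.card : ℝ) ≤ (J : ℝ) ^ 2 / 4 := by
    have h1 : ∀ q ∈ S, ((DF q ×ˢ DG q).card : ℝ) ≤ 4 * (d : ℝ) ^ 2 * (J : ℝ) ^ 2 *
        (((q : ℝ) ^ 2)⁻¹) := by
      intro q hq
      rw [hS, mem_filter, mem_Ioc] at hq
      obtain ⟨⟨hq1, hq2⟩, hq3, hqt⟩ := hq
      have hq0 : (0 : ℝ) < q := by exact_mod_cast hq3.pos
      have h3 : ((J / q + 1 : ℕ) : ℝ) ≤ 2 * (J : ℝ) / q := by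
        have h4 : ((J / q : ℕ) : ℝ) ≤ (J : ℝ) / q := Nat.cast_div_le
        have h5 : (1 : ℝ) ≤ (J : ℝ) / q := by
          rw [le_div_iff₀ hq0, one_mul]
          exact_mod_cast hq2
        push_cast
        rw [show 2 * (J : ℝ) / q = (J : ℝ) / q + (J : ℝ) / q by ring]
        linarith
      have h4 : ((DF q).card : ℝ) ≤ d * (2 * (J : ℝ) / q) := by
        calc ((DF q).card : ℝ) ≤ ((d * (J / q + 1) : ℕ) : ℝ) := by exact_mod_cast hcF q hq3 hqt
          _ = d * ((J / q + 1 : ℕ) : ℝ) := by push_cast; ring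
          _ ≤ _ := mul_le_mul_of_nonneg_left h3 (Nat.cast_nonneg _)
      have h5 : ((DG q).card : ℝ) ≤ d * (2 * (J : ℝ) / q) := by
        calc ((DG q).card : ℝ) ≤ ((d * (J / q + 1) : ℕ) : ℝ) := by exact_mod_cast hcG q hq3 hqt
          _ = d * ((J / q + 1 : ℕ) : ℝ) := by push_cast; ring
          _ ≤ _ := mul_le_mul_of_nonneg_left h3 (Nat.cast_nonneg _)
      rw [card_product]
      push_cast
      calc ((DF q).card : ℝ) * ((DG q).card : ℝ) ≤
            (d * (2 * (J : ℝ) / q)) * (d * (2 * (J : ℝ) / q)) :=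
            mul_le_mul h4 h5 (Nat.cast_nonneg _) (by positivity)
        _ = 4 * (d : ℝ) ^ 2 * (J : ℝ) ^ 2 * (((q : ℝ) ^ 2)⁻¹) := by
            field_simp
            ring
    have h2 : ∑ q ∈ S, (((q : ℝ) ^ 2)⁻¹) ≤ 1 / P0 := by
      have h3 : ∑ q ∈ S, (((q : ℝ) ^ 2)⁻¹) ≤ ∑ q ∈ Ioc P0 J, (((q : ℝ) ^ 2)⁻¹) :=
        Finset.sum_le_sum_of_subset_of_nonneg (filter_subset _ _) fun _ _ _ => by positivity
      refine h3.trans ?_
      rcases le_or_gt P0 J with h4 | h4
      · have h5 := sum_Ioc_inv_sq_le_sub (α := ℝ) hP0pos.ne' h4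
        refine h5.trans ?_
        rw [one_div]
        have : (0 : ℝ) ≤ (J : ℝ)⁻¹ := by positivity
        linarith
      · rw [Finset.Ioc_eq_empty (by omega)]
        simp
    have hdP : 4 * (d : ℝ) ^ 2 * (1 / P0) ≤ 1 / 4 := by
      have h6 : 16 * (d : ℝ) ^ 2 ≤ P0 := by exact_mod_cast hP0
      rw [mul_one_div, div_le_div_iff₀ hPR (by norm_num)]
      linarith
    calc (B1.card : ℝ) ≤ ∑ q ∈ S, ((DF q ×ˢ DG q).card : ℝ) := by
          exact_mod_cast Finset.card_biUnion_le
      _ ≤ ∑ q ∈ S, 4 * (d : ℝ) ^ 2 * (J : ℝ) ^ 2 * (((q : ℝ) ^ 2)⁻¹) := Finset.sum_le_sum h1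
      _ = (4 * (d : ℝ) ^ 2 * (J : ℝ) ^ 2) * ∑ q ∈ S, (((q : ℝ) ^ 2)⁻¹) := by rw [Finset.mul_sum]
      _ ≤ (4 * (d : ℝ) ^ 2 * (J : ℝ) ^ 2) * (1 / P0) :=
          mul_le_mul_of_nonneg_left h2 (by positivity)
      _ = (4 * (d : ℝ) ^ 2 * (1 / P0)) * (J : ℝ) ^ 2 := by ring
      _ ≤ (1 / 4) * (J : ℝ) ^ 2 := mul_le_mul_of_nonneg_right hdP (by positivity)
      _ = (J : ℝ) ^ 2 / 4 := by ring
  have h3 : ((J * J : ℕ) : ℝ) ≤ (B0.card : ℝ) + B2.card + B1.card := by
    have h4 : J * J ≤ B0.card + B2.card + B1.card := by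
      calc J * J = (range J ×ˢ range J).card := by rw [card_product, card_range]
        _ ≤ ((B0 ∪ B2) ∪ B1).card := card_le_card hsub
        _ ≤ (B0 ∪ B2).card + B1.card := card_union_le _ _
        _ ≤ B0.card + B2.card + B1.card := by
            have := card_union_le B0 B2
            omega
    exact_mod_cast h4
  have c0R : (B0.card : ℝ) ≤ J := by exact_mod_cast c0
  have c2R : (B2.card : ℝ) ≤ J * (ω * d) := by exact_mod_cast c2
  have hJR2 : 4 * (1 + (d : ℝ) * ω) ≤ J := by exact_mod_cast hJ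
  push_cast at h3
  nlinarith

end Pool.Agent.H34x.KF
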