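import Pool.Agent.H34x.KF.Ht

/-!
# Common divisors and congruences
-/

set_option autoImplicit false

namespace Pool.Agent.H34x.KF

open NumberField IsDedekindDomain Finset

variable {K : Type} [Field K] [NumberField K]

/-- the common divisor of the numerator and the denominator divides `g` -/
theorem gcd_mem {z0 γ : 𝓞 K} (hz0 : z0 ≠ 0) {M g M' : ℕ} (hM : M = g ^ 2 * M')
    (h1 : (M : 𝓞 K) ∣ γ - g)
    (h2 : ∀ v : HeightOneSpectrum (𝓞 K), z0 ∈ v.asIdeal → γ ∈ v.asIdeal →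
      (M : 𝓞 K) ∈ v.asIdeal) : (g : 𝓞 K) ∈ Ideal.span {z0, γ} := by
  set I : Ideal (𝓞 K) := Ideal.span {z0, γ} with hI
  have hz0I : z0 ∈ I := Ideal.subset_span (by simp)
  have hγI : γ ∈ I := Ideal.subset_span (by simp)
  set J : Ideal (𝓞 K) := Submodule.comap (LinearMap.mulRight (𝓞 K) (g : 𝓞 K)) I with hJ
  have hJm : ∀ x : 𝓞 K, x ∈ J ↔ x * (g : 𝓞 K) ∈ I := by
    intro x
    rw [hJ, Submodule.mem_comap, LinearMap.mulRight_apply]
  by_contra hcon
  have hJt : J ≠ ⊤ := by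
    intro h
    apply hcon
    have : (1 : 𝓞 K) ∈ J := by rw [h]; trivial
    rw [hJm, one_mul] at this
    exact this
  obtain ⟨m, hm, hJm'⟩ := Ideal.exists_le_maximal J hJt
  have hIJ : ∀ x ∈ I, x ∈ m := fun x hx => hJm' ((hJm x).2 (Ideal.mul_mem_right _ _ hx))
  have hm0 : m ≠ ⊥ := by
    intro h
    have := hIJ z0 hz0I
    rw [h, Ideal.mem_bot] at this
    exact hz0 this
  have hMm := h2 ⟨m, hm.isPrime, hm0⟩ (hIJ _ hz0I) (hIJ _ hγI)
  simp only at hMm
  obtain ⟨ν, hν⟩ := h1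
  have e1 : γ = (1 + g * M' * ν) * (g : 𝓞 K) := by
    have e2 : γ = g + (M : 𝓞 K) * ν := by rw [← hν]; ring
    rw [e2, hM]
    push_cast
    ring
  have h3 : (1 + g * M' * ν : 𝓞 K) ∈ m := by
    apply hJm'
    rw [hJm, ← e1]
    exact hγI
  have h4 : (g * M' * ν : 𝓞 K) ∈ m := by
    rw [hM] at hMm
    push_cast at hMm
    rcases hm.isPrime.mem_or_mem hMm with h | h
    · exact Ideal.mul_mem_right _ _ (Ideal.mul_mem_right _ _ (hm.isPrime.mem_of_pow_mem _ h))
    · exact Ideal.mul_mem_right _ _ (Ideal.mul_mem_left _ _ h)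
  apply hm.ne_top
  rw [Ideal.eq_top_iff_one]
  have e3 : (1 : 𝓞 K) = (1 + g * M' * ν) - g * M' * ν := by ring
  rw [e3]
  exact Ideal.sub_mem _ h3 h4

theorem fp_le_one (v : HeightOneSpectrum (𝓞 K)) (x : 𝓞 K) : FinitePlace.mk v (x : K) ≤ 1 := by
  rw [FinitePlace.mk_apply]
  exact FinitePlace.norm_le_one K v x

theorem fp_lt_one_iff (v : HeightOneSpectrum (𝓞 K)) (x : 𝓞 K) :
    FinitePlace.mk v (x : K) < 1 ↔ x ∈ v.asIdeal := by
  rw [FinitePlace.mk_apply]
  exact FinitePlace.norm_lt_one_iff_mem K v x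

/-- zeros of a quotient are zeros of the numerator -/
theorem num_mem {x y : 𝓞 K} (hy : y ≠ 0) (v : HeightOneSpectrum (𝓞 K))
    (h : FinitePlace.mk v ((x : K) / y) < 1) : x ∈ v.asIdeal := by
  rw [← fp_lt_one_iff]
  have hyK : (y : K) ≠ 0 := by exact_mod_cast hy
  have h1 : (FinitePlace.mk v) ((x : K) / y) = FinitePlace.mk v (x : K) / FinitePlace.mk v (y : K) :=
    map_div₀ (FinitePlace.mk v) _ _
  have h2 : 0 < FinitePlace.mk v (y : K) := FinitePlace.pos_iff.2 hyK
  rw [h1, div_lt_one h2] at h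
  exact h.trans_le (fp_le_one v y)

/-- congruences give closeness at the primes -/
theorem close {z0 γ α0 : 𝓞 K} {M g M' N : ℕ} (hg : 0 < g) (hγ : γ ≠ 0) (hM : M = g ^ 2 * M')
    (hN : N ∣ M') (h1 : (M : 𝓞 K) ∣ γ - g) (h2 : (M : 𝓞 K) ∣ z0 - α0)
    (v : HeightOneSpectrum (𝓞 K)) (hv : FinitePlace.mk v (N : K) < 1) :
    FinitePlace.mk v ((z0 : K) / γ - (α0 : K) / (g : K)) ≤ FinitePlace.mk v (N : K) := by
  have hgK : (g : K) ≠ 0 := by exact_mod_cast hg.ne'
  have hγK : (γ : K) ≠ 0 := by exact_mod_cast hγ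
  obtain ⟨ν, hν⟩ := h1
  obtain ⟨μ, hμ⟩ := h2
  obtain ⟨N', hN'⟩ := hN
  set f := FinitePlace.mk v with hf
  have eγ : (γ : K) = (g : K) * (1 + (g : K) * (M' : K) * (ν : K)) := by
    have e2 : γ = g + (M : 𝓞 K) * ν := by rw [← hν]; ring
    rw [e2, hM]
    push_cast
    ring
  have ez : (z0 : K) = (α0 : K) + (g : K) ^ 2 * (M' : K) * (μ : K) := by
    have e2 : z0 = α0 + (M : 𝓞 K) * μ := by rw [← hμ]; ring
    rw [e2, hM]
    push_cast
    ring
  have hint : ∀ x : 𝓞 K, f (x : K) ≤ 1 := fun x => fp_le_one v x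
  have hnat : ∀ n : ℕ, f (n : K) ≤ 1 := by
    intro n
    have := hint (n : 𝓞 K)
    push_cast at this
    exact this
  have hna : ∀ x y : K, f (x + y) ≤ max (f x) (f y) := fun x y => FinitePlace.add_le f x y
  have hM'1 : f (M' : K) ≤ f (N : K) := by
    rw [hN']
    push_cast
    rw [map_mul]
    exact mul_le_of_le_one_right (apply_nonneg f _) (hnat N')
  have hM'lt : f (M' : K) < 1 := hM'1.trans_lt hv
  have hsm : f ((g : K) * (M' : K) * (ν : K)) < 1 := by
    rw [map_mul, map_mul]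
    have h3 : f (g : K) * f (M' : K) ≤ f (M' : K) :=
      mul_le_of_le_one_left (apply_nonneg f _) (hnat g)
    have h4 : f (g : K) * f (M' : K) * f (ν : K) ≤ f (g : K) * f (M' : K) :=
      mul_le_of_le_one_right (mul_nonneg (apply_nonneg f _) (apply_nonneg f _)) (hint ν)
    linarith
  have hunit : f (1 + (g : K) * (M' : K) * (ν : K)) = 1 := by
    apply le_antisymm
    · refine (hna _ _).trans (max_le ?_ hsm.le)
      rw [map_one]
    · by_contra hcon
      push Not at hcon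
      have h5 : (1 : K) = (1 + (g : K) * (M' : K) * (ν : K)) + -((g : K) * (M' : K) * (ν : K)) := by
        ring
      have h6 : f (-((g : K) * (M' : K) * (ν : K))) < 1 := by
        have h8 : f (-((g : K) * (M' : K) * (ν : K))) = f ((g : K) * (M' : K) * (ν : K)) := by
          rw [FinitePlace.coe_apply, FinitePlace.coe_apply, AbsoluteValue.map_neg]
        rw [h8]
        exact hsm
      have h7 := hna (1 + (g : K) * (M' : K) * (ν : K)) (-((g : K) * (M' : K) * (ν : K)))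
      rw [← h5, map_one] at h7
      exact absurd (h7.trans_lt (max_lt hcon h6)) (lt_irrefl _)
  have hu0 : (1 + (g : K) * (M' : K) * (ν : K)) ≠ 0 := by
    intro h
    rw [h, map_zero] at hunit
    norm_num at hunit
  have ediff : (z0 : K) / γ - (α0 : K) / (g : K) =
      (M' : K) * ((g : K) * (μ : K) - (α0 : K) * (ν : K)) /
        (1 + (g : K) * (M' : K) * (ν : K)) := by
    rw [eγ, ez]
    field_simp
    ring
  rw [ediff, map_div₀, hunit, div_one, map_mul]
  have h9 : f ((g : K) * (μ : K) - (α0 : K) * (ν : K)) ≤ 1 := by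
    have := hint ((g : 𝓞 K) * μ - α0 * ν)
    push_cast at this
    exact this
  exact (mul_le_of_le_one_right (apply_nonneg f _) h9).trans hM'1

end Pool.Agent.H34x.KF
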