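import Mathlib

/-!
# Heights and conductors of quotients of integers of a number field
-/

set_option autoImplicit false

namespace Pool.Agent.H34x.KF

open NumberField IsDedekindDomain Finset

variable {K : Type} [Field K] [NumberField K]

/-- the absolute logarithmic Weil height -/
noncomputable def height (x : K) : ℝ :=
  (1 / (Module.finrank ℚ K : ℝ)) *
    ((∑ w : InfinitePlace K, (w.mult : ℝ) * Real.log (max 1 (w x))) +
      ∑ᶠ v : HeightOneSpectrum (𝓞 K), Real.log (max 1 (FinitePlace.mk v x)))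

/-- the conductor -/
noncomputable def cond (x : K) : ℝ :=
  (1 / (Module.finrank ℚ K : ℝ)) *
    (∑ᶠ v : HeightOneSpectrum (𝓞 K),
      (if FinitePlace.mk v x < 1 then Real.log (Ideal.absNorm v.asIdeal : ℝ) else 0))

theorem d_pos : 0 < (Module.finrank ℚ K : ℝ) := by
  have : 0 < Module.finrank ℚ K := Module.finrank_pos
  exact_mod_cast this

theorem height_eq (x : K) : (Module.finrank ℚ K : ℝ) * height x = Height.logHeight₁ x := by
  rw [NumberField.logHeight₁_eq]
  unfold height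
  rw [← mul_assoc, mul_one_div_cancel d_pos.ne', one_mul]
  congr 1
  · refine Finset.sum_congr rfl fun w _ => ?_
    rw [Real.posLog_eq_log_max_one (apply_nonneg w x)]
  · rw [← finsum_comp_equiv FinitePlace.equivHeightOneSpectrum.symm]
    refine finsum_congr fun v => ?_
    rw [Real.posLog_eq_log_max_one (apply_nonneg _ x)]
    rfl

theorem norm_le {β : 𝓞 K} {A : ℝ} (hA : ∀ w : InfinitePlace K, w (β : K) ≤ A) :
    (Ideal.absNorm (Ideal.span {β}) : ℝ) ≤ A ^ Module.finrank ℚ K := by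
  rw [Ideal.absNorm_span_singleton]
  have h1 : (((Algebra.norm ℤ β).natAbs : ℕ) : ℝ) = |((Algebra.norm ℚ (β : K) : ℚ) : ℝ)| := by
    rw [Nat.cast_natAbs, ← Algebra.coe_norm_int β]
    push_cast
    rfl
  rw [h1, show |((Algebra.norm ℚ (β : K) : ℚ) : ℝ)| = ((|Algebra.norm ℚ (β : K)| : ℚ) : ℝ) by
    push_cast; rfl, ← InfinitePlace.prod_eq_abs_norm]
  calc ∏ w : InfinitePlace K, w (β : K) ^ w.mult ≤ ∏ w : InfinitePlace K, A ^ w.mult :=
        Finset.prod_le_prod (fun w _ => pow_nonneg (apply_nonneg w _) _)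
          fun w _ => pow_le_pow_left₀ (apply_nonneg w _) (hA w) _
    _ = A ^ Module.finrank ℚ K := by
        rw [Finset.prod_pow_eq_pow_sum, InfinitePlace.sum_mult_eq]

omit [NumberField K] in
theorem two_sup (f : K → ℝ) (x y : K) : (⨆ i, f (![x, y] i)) = max (f x) (f y) := by
  have hb : BddAbove (Set.range fun i => f (![x, y] i)) := Set.finite_range _ |>.bddAbove
  apply le_antisymm
  · apply ciSup_le
    intro i
    fin_cases i
    · exact le_max_left _ _
    · exact le_max_right _ _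
  · exact max_le (le_ciSup hb 0) (le_ciSup hb 1)

/-- the logarithmic height of a quotient of integers -/
theorem logHeight_eq {α γ : 𝓞 K} (hγ : γ ≠ 0) :
    (Module.finrank ℚ K : ℝ) * height ((α : K) / γ) =
      (∑ w : InfinitePlace K, (w.mult : ℝ) * Real.log (max (w (α : K)) (w (γ : K)))) -
        Real.log (Ideal.absNorm (Ideal.span {α, γ})) := by
  have hγK : (γ : K) ≠ 0 := by exact_mod_cast hγ
  have h0 : (![α, γ] : Fin 2 → 𝓞 K) ≠ 0 := fun h => hγ (congrFun h 1)
  have h0K : (![(α : K), (γ : K)] : Fin 2 → K) ≠ 0 := fun h => hγK (congrFun h 1)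
  rw [height_eq, Height.logHeight₁_div_eq_logHeight, Height.logHeight_eq_log_mulHeight,
    NumberField.mulHeight_eq h0K]
  have h1 := absNorm_mul_finprod_finitePlace_eq_one h0
  have hr : Set.range (![α, γ] : Fin 2 → 𝓞 K) = {α, γ} := by
    simp [Matrix.range_cons, Matrix.range_empty, Set.pair_comm]
  rw [hr] at h1
  have hI : (0 : ℝ) < (Ideal.absNorm (Ideal.span {α, γ} : Ideal (𝓞 K)) : ℝ) := by
    have : Ideal.absNorm (Ideal.span {α, γ} : Ideal (𝓞 K)) ≠ 0 := by
      rw [Ne, Ideal.absNorm_eq_zero_iff, Ideal.span_eq_bot]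
      intro h
      exact hγ (h γ (by simp))
    exact_mod_cast Nat.pos_of_ne_zero this
  have h2 : (∏ᶠ v : FinitePlace K, ⨆ i, v (![(α : K), (γ : K)] i)) =
      (Ideal.absNorm (Ideal.span {α, γ} : Ideal (𝓞 K)) : ℝ)⁻¹ := by
    have h3 : (∏ᶠ v : FinitePlace K, ⨆ i, v (![(α : K), (γ : K)] i)) =
        ∏ᶠ v : FinitePlace K, ⨆ i, v (((![α, γ] : Fin 2 → 𝓞 K) i : 𝓞 K) : K) := by
      refine finprod_congr fun v => ?_
      congr 1
      ext i
      fin_cases i <;> rfl
    rw [h3]
    exact eq_inv_of_mul_eq_one_right h1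
  rw [h2]
  have h4 : ∀ w : InfinitePlace K, 0 < max (w (α : K)) (w (γ : K)) := fun w =>
    lt_max_of_lt_right (InfinitePlace.pos_iff.2 hγK)
  have h5 : (∏ v : InfinitePlace K, (⨆ i, v (![(α : K), (γ : K)] i)) ^ v.mult) =
      ∏ w : InfinitePlace K, (max (w (α : K)) (w (γ : K))) ^ w.mult := by
    refine Finset.prod_congr rfl fun w _ => ?_
    rw [two_sup w]
  rw [h5, Real.log_mul (Finset.prod_pos fun w _ => pow_pos (h4 w) _).ne' (inv_pos.2 hI).ne',
    Real.log_inv, Real.log_prod (fun w _ => (pow_pos (h4 w) _).ne')]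
  have h6 : ∀ w : InfinitePlace K, Real.log (max (w (α : K)) (w (γ : K)) ^ w.mult) =
      (w.mult : ℝ) * Real.log (max (w (α : K)) (w (γ : K))) := fun w => Real.log_pow _ _
  simp only [h6]
  ring

theorem sum_mult (c : ℝ) : ∑ w : InfinitePlace K, (w.mult : ℝ) * c =
    (Module.finrank ℚ K : ℝ) * c := by
  rw [← Finset.sum_mul, ← Nat.cast_sum, InfinitePlace.sum_mult_eq]

theorem height_le {α γ : 𝓞 K} (hγ : γ ≠ 0) {A : ℝ} (h1 : ∀ w : InfinitePlace K, w (α : K) ≤ A)
    (h2 : ∀ w : InfinitePlace K, w (γ : K) ≤ A) : height ((α : K) / γ) ≤ Real.log A := by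
  have hγK : (γ : K) ≠ 0 := by exact_mod_cast hγ
  have h3 := logHeight_eq (α := α) hγ
  have h4 : 0 ≤ Real.log (Ideal.absNorm (Ideal.span {α, γ} : Ideal (𝓞 K)) : ℝ) :=
    Real.log_natCast_nonneg _
  have h5 : (∑ w : InfinitePlace K, (w.mult : ℝ) * Real.log (max (w (α : K)) (w (γ : K)))) ≤
      (Module.finrank ℚ K : ℝ) * Real.log A := by
    rw [← sum_mult]
    apply Finset.sum_le_sum
    intro w _
    apply mul_le_mul_of_nonneg_left _ (Nat.cast_nonneg _)
    exact Real.log_le_log (lt_max_of_lt_right (InfinitePlace.pos_iff.2 hγK))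
      (max_le (h1 w) (h2 w))
  have h6 : (Module.finrank ℚ K : ℝ) * height ((α : K) / γ) ≤
      (Module.finrank ℚ K : ℝ) * Real.log A := by linarith
  exact le_of_mul_le_mul_left h6 d_pos

theorem le_height {α γ : 𝓞 K} (hγ : γ ≠ 0) {A : ℝ} (hA : 0 < A)
    (h2 : ∀ w : InfinitePlace K, A ≤ w (γ : K)) {g : ℕ} (hg0 : 0 < g)
    (hg : (g : 𝓞 K) ∈ Ideal.span {α, γ}) :
    Real.log A - Real.log g ≤ height ((α : K) / γ) := by
  have hγK : (γ : K) ≠ 0 := by exact_mod_cast hγ
  have h3 := logHeight_eq (α := α) hγ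
  have h4 : Real.log (Ideal.absNorm (Ideal.span {α, γ} : Ideal (𝓞 K)) : ℝ) ≤
      (Module.finrank ℚ K : ℝ) * Real.log g := by
    have h7 : Ideal.absNorm (Ideal.span {α, γ} : Ideal (𝓞 K)) ∣
        Ideal.absNorm (Ideal.span {(g : 𝓞 K)}) :=
      Ideal.absNorm_dvd_absNorm_of_le ((Ideal.span_singleton_le_iff_mem _).2 hg)
    have h8 : Ideal.absNorm (Ideal.span {(g : 𝓞 K)}) = g ^ Module.finrank ℚ K := by
      rw [Ideal.absNorm_span_singleton]
      have : (g : 𝓞 K) = algebraMap ℤ (𝓞 K) g := by simp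
      rw [this, Algebra.norm_algebraMap, Int.natAbs_pow, Int.natAbs_natCast,
        RingOfIntegers.rank]
    rw [h8] at h7
    have h9 := Nat.le_of_dvd (pow_pos hg0 _) h7
    rw [← Real.log_pow]
    rcases Nat.eq_zero_or_pos (Ideal.absNorm (Ideal.span {α, γ} : Ideal (𝓞 K))) with h | h
    · rw [h]
      simp only [Nat.cast_zero, Real.log_zero]
      exact Real.log_nonneg (one_le_pow₀ (by exact_mod_cast hg0))
    · exact Real.log_le_log (by exact_mod_cast h) (by exact_mod_cast h9)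
  have h5 : (Module.finrank ℚ K : ℝ) * Real.log A ≤
      (∑ w : InfinitePlace K, (w.mult : ℝ) * Real.log (max (w (α : K)) (w (γ : K)))) := by
    rw [← sum_mult]
    apply Finset.sum_le_sum
    intro w _
    apply mul_le_mul_of_nonneg_left _ (Nat.cast_nonneg _)
    exact Real.log_le_log hA ((h2 w).trans (le_max_right _ _))
  have h6 : (Module.finrank ℚ K : ℝ) * (Real.log A - Real.log g) ≤
      (Module.finrank ℚ K : ℝ) * height ((α : K) / γ) := by
    rw [mul_sub]
    linarith
  exact le_of_mul_le_mul_left h6 d_pos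

/-- the primes dividing an integer -/
theorem sum_le {β : 𝓞 K} (hβ : β ≠ 0) (S : Finset (HeightOneSpectrum (𝓞 K)))
    (hS : ∀ v ∈ S, β ∈ v.asIdeal) :
    ∑ v ∈ S, Real.log (Ideal.absNorm v.asIdeal : ℝ) ≤
      Real.log (Ideal.absNorm (Ideal.span {β}) : ℝ) := by
  have h1 : ∏ v ∈ S, v.asIdeal ∣ Ideal.span {β} := by
    apply Finset.prod_dvd_of_coprime
    · intro v _ w _ hvw
      exact Ideal.isCoprime_of_isMaximal (fun h => hvw (HeightOneSpectrum.ext h))
    · intro v hv
      exact Ideal.dvd_span_singleton.2 (hS v hv)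
  have h2 := map_dvd Ideal.absNorm h1
  rw [map_prod] at h2
  have h3 : Ideal.absNorm (Ideal.span {β}) ≠ 0 := by
    rw [Ne, Ideal.absNorm_eq_zero_iff, Ideal.span_singleton_eq_bot]
    exact hβ
  have h4 := Nat.le_of_dvd (Nat.pos_of_ne_zero h3) h2
  have hpos : ∀ v : HeightOneSpectrum (𝓞 K), 0 < Ideal.absNorm v.asIdeal := fun v =>
    Nat.pos_of_ne_zero (fun h => v.ne_bot (Ideal.absNorm_eq_zero_iff.1 h))
  rw [← Real.log_prod (fun v _ => by exact_mod_cast (hpos v).ne')]
  apply Real.log_le_log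
  · exact Finset.prod_pos fun v _ => by exact_mod_cast hpos v
  · exact_mod_cast h4

theorem finite_dvd {β : 𝓞 K} (hβ : β ≠ 0) :
    {v : HeightOneSpectrum (𝓞 K) | β ∈ v.asIdeal}.Finite := by
  have h := Ideal.finite_factors (R := 𝓞 K) (I := Ideal.span {β})
    (by rw [Ne, Ideal.zero_eq_bot, Ideal.span_singleton_eq_bot]; exact hβ)
  refine h.subset fun v hv => ?_
  exact Ideal.dvd_span_singleton.2 hv

/-- the conductor of a number the numerator of which is divisible by a large power -/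
theorem cond_le {x : K} {β : 𝓞 K} (hβ : β ≠ 0)
    (hx : ∀ v : HeightOneSpectrum (𝓞 K), FinitePlace.mk v x < 1 → β ∈ v.asIdeal) {b e : ℕ}
    (hb : 0 < b) (hd : (b : 𝓞 K) ^ e ∣ β) {A : ℝ} (hA : 0 < A)
    (h2 : ∀ w : InfinitePlace K, w (β : K) ≤ A) :
    cond x ≤ Real.log A - ((e : ℝ) - 1) * Real.log b := by
  classical
  set S := (finite_dvd hβ).toFinset with hS
  have h1 : (Module.finrank ℚ K : ℝ) * cond x ≤
      ∑ v ∈ S, Real.log (Ideal.absNorm v.asIdeal : ℝ) := by
    unfold cond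
    rw [← mul_assoc, mul_one_div_cancel d_pos.ne', one_mul,
      finsum_eq_sum_of_support_subset (s := S)]
    · apply Finset.sum_le_sum
      intro v _
      split_ifs
      · exact le_rfl
      · exact Real.log_natCast_nonneg _
    · intro v hv
      rw [Function.mem_support] at hv
      rw [hS, Set.Finite.coe_toFinset]
      apply hx
      by_contra h
      exact hv (if_neg h)
  obtain ⟨β', hβ'⟩ := hd
  have hβ'0 : β' ≠ 0 := fun h => hβ (by rw [hβ', h, mul_zero])
  have hb0 : (b : 𝓞 K) ≠ 0 := by exact_mod_cast hb.ne'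
  have h3 : ∑ v ∈ S, Real.log (Ideal.absNorm v.asIdeal : ℝ) ≤
      ∑ v ∈ (finite_dvd hb0).toFinset, Real.log (Ideal.absNorm v.asIdeal : ℝ) +
        ∑ v ∈ (finite_dvd hβ'0).toFinset, Real.log (Ideal.absNorm v.asIdeal : ℝ) := by
    rw [← Finset.sum_union_inter]
    have h4 : S ⊆ (finite_dvd hb0).toFinset ∪ (finite_dvd hβ'0).toFinset := by
      intro v hv
      rw [hS, Set.Finite.mem_toFinset, Set.mem_ofPred_eq, hβ'] at hv
      rw [Finset.mem_union, Set.Finite.mem_toFinset, Set.Finite.mem_toFinset]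
      rcases v.isPrime.mem_or_mem hv with h | h
      · exact Or.inl (v.isPrime.mem_of_pow_mem _ h)
      · exact Or.inr h
    have h5 := Finset.sum_le_sum_of_subset_of_nonneg
      (f := fun v : HeightOneSpectrum (𝓞 K) => Real.log (Ideal.absNorm v.asIdeal : ℝ)) h4
      (fun v _ _ => Real.log_natCast_nonneg _)
    have h6 : 0 ≤ ∑ v ∈ (finite_dvd hb0).toFinset ∩ (finite_dvd hβ'0).toFinset,
        Real.log (Ideal.absNorm v.asIdeal : ℝ) :=
      Finset.sum_nonneg fun v _ => Real.log_natCast_nonneg _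
    linarith
  have h7 := sum_le hb0 (finite_dvd hb0).toFinset (fun v hv => by
    rw [Set.Finite.mem_toFinset] at hv; exact hv)
  have h8 := sum_le hβ'0 (finite_dvd hβ'0).toFinset (fun v hv => by
    rw [Set.Finite.mem_toFinset] at hv; exact hv)
  have hNb : Ideal.absNorm (Ideal.span {(b : 𝓞 K)}) = b ^ Module.finrank ℚ K := by
    rw [Ideal.absNorm_span_singleton]
    have : (b : 𝓞 K) = algebraMap ℤ (𝓞 K) b := by simp
    rw [this, Algebra.norm_algebraMap, Int.natAbs_pow, Int.natAbs_natCast, RingOfIntegers.rank]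
  have hN : Ideal.absNorm (Ideal.span {β}) =
      (b ^ Module.finrank ℚ K) ^ e * Ideal.absNorm (Ideal.span {β'}) := by
    rw [hβ', ← Ideal.span_singleton_mul_span_singleton, ← Ideal.span_singleton_pow, map_mul,
      map_pow, hNb]
  have hbR : (0 : ℝ) < b := by exact_mod_cast hb
  have hN0 : (0 : ℝ) < (Ideal.absNorm (Ideal.span {β'}) : ℝ) := by
    have : Ideal.absNorm (Ideal.span {β'}) ≠ 0 := by
      rw [Ne, Ideal.absNorm_eq_zero_iff, Ideal.span_singleton_eq_bot]
      exact hβ'0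
    exact_mod_cast Nat.pos_of_ne_zero this
  have h9 : Real.log (Ideal.absNorm (Ideal.span {β}) : ℝ) =
      e * ((Module.finrank ℚ K : ℝ) * Real.log b) +
        Real.log (Ideal.absNorm (Ideal.span {β'}) : ℝ) := by
    rw [hN]
    push_cast
    rw [Real.log_mul (by positivity) hN0.ne', Real.log_pow, Real.log_pow]
  have h10 : Real.log (Ideal.absNorm (Ideal.span {β}) : ℝ) ≤
      (Module.finrank ℚ K : ℝ) * Real.log A := by
    rw [← Real.log_pow]
    apply Real.log_le_log _ (norm_le h2)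
    rw [hN]
    push_cast
    positivity
  have h11 : Real.log (Ideal.absNorm (Ideal.span {(b : 𝓞 K)}) : ℝ) =
      (Module.finrank ℚ K : ℝ) * Real.log b := by
    rw [hNb]
    push_cast
    rw [Real.log_pow]
  have h12 : (Module.finrank ℚ K : ℝ) * cond x ≤
      (Module.finrank ℚ K : ℝ) * (Real.log A - ((e : ℝ) - 1) * Real.log b) := by
    have e1 : (Module.finrank ℚ K : ℝ) * (Real.log A - ((e : ℝ) - 1) * Real.log b) =
      (Module.finrank ℚ K : ℝ) * Real.log A - e * ((Module.finrank ℚ K : ℝ) * Real.log b) +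
        (Module.finrank ℚ K : ℝ) * Real.log b := by ring
    rw [e1]
    linarith
  exact le_of_mul_le_mul_left h12 d_pos

end Pool.Agent.H34x.KF
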