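import Pool.Agent.H34x.KF.Norm
import Pool.Agent.H34x.KF.Count
import Pool.Agent.H34x.NT.Point

/-!
# Pairs of integers of a number field near a point of the Minkowski space
-/

set_option autoImplicit false

namespace Pool.Agent.H34x.KF

open NumberField IsDedekindDomain Finset Polynomial
open Pool.Agent.H34x.NT (idem)

variable {K : Type} [Field K] [NumberField K]

theorem not_dvd_one {b : ℕ} (hb : 2 ≤ b) : ¬ (b : 𝓞 K) ∣ 1 := by
  intro h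
  have h1 : IsUnit (b : 𝓞 K) := isUnit_of_dvd_one h
  have h2 := h1.map (Algebra.norm ℤ)
  have h3 : (b : 𝓞 K) = algebraMap ℤ (𝓞 K) b := by simp
  rw [h3, Algebra.norm_algebraMap, RingOfIntegers.rank, isUnit_pow_iff
    (Module.finrank_pos (R := ℚ) (M := K)).ne', Int.isUnit_iff_natAbs_eq, Int.natAbs_natCast] at h2
  omega

/-- the base point -/
theorem base {M : ℕ} {b : Fin 3 → ℕ} (hM : ∀ i, Nat.Coprime M (b i))
    (hb : ∀ i j, i ≠ j → Nat.Coprime (b i) (b j)) (e : Fin 3 → ℕ) (α0 γ0 : 𝓞 K) :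
    ∃ r0 r1 : 𝓞 K, ((M : 𝓞 K) ∣ r0 - α0) ∧ ((M : 𝓞 K) ∣ r1 + γ0) ∧
      (b 0 : 𝓞 K) ^ e 0 ∣ r0 ∧ (b 0 : 𝓞 K) ^ e 0 ∣ r1 + 1 ∧
      (b 1 : 𝓞 K) ^ e 1 ∣ r1 ∧ (b 1 : 𝓞 K) ^ e 1 ∣ r0 - 1 ∧
      (b 2 : 𝓞 K) ^ e 2 ∣ r0 + r1 ∧ (b 2 : 𝓞 K) ^ e 2 ∣ r0 - 1 := by
  have hMc : ∀ i, IsCoprime (M : ℤ) ((b i : ℤ) ^ e i) := fun i =>
    IsCoprime.pow_right (Nat.isCoprime_iff_coprime.2 (hM i))
  have hbc : ∀ i j, i ≠ j → IsCoprime ((b i : ℤ) ^ e i) ((b j : ℤ) ^ e j) := fun i j hij =>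
    IsCoprime.pow (Nat.isCoprime_iff_coprime.2 (hb i j hij))
  have h01 := hbc 0 1 (by decide)
  have h02 := hbc 0 2 (by decide)
  have h12 := hbc 1 2 (by decide)
  obtain ⟨sM, sM1, sM2⟩ := idem ((hMc 0).mul_right ((hMc 1).mul_right (hMc 2)))
  obtain ⟨s0, s01, s02⟩ := idem ((hMc 0).symm.mul_right (h01.mul_right h02))
  obtain ⟨s1, s11, s12⟩ := idem ((hMc 1).symm.mul_right (h01.symm.mul_right h12))
  obtain ⟨s2, s21, s22⟩ := idem ((hMc 2).symm.mul_right (h02.symm.mul_right h12.symm))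
  have cast_dvd : ∀ {u v : ℤ}, u ∣ v → (u : 𝓞 K) ∣ (v : 𝓞 K) := by
    rintro u v ⟨c, rfl⟩
    push_cast
    exact Dvd.intro _ rfl
  have sM1' := cast_dvd sM1
  have sM20 := cast_dvd ((Dvd.intro _ rfl).trans sM2)
  have sM21 := cast_dvd (((Dvd.intro _ rfl).trans (Dvd.intro_left _ rfl)).trans sM2)
  have sM22 := cast_dvd (((Dvd.intro_left _ rfl).trans (Dvd.intro_left _ rfl)).trans sM2)
  have s01' := cast_dvd s01
  have s0M := cast_dvd ((Dvd.intro _ rfl).trans s02)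
  have s0b := cast_dvd (((Dvd.intro _ rfl).trans (Dvd.intro_left _ rfl)).trans s02)
  have s0c := cast_dvd (((Dvd.intro_left _ rfl).trans (Dvd.intro_left _ rfl)).trans s02)
  have s11' := cast_dvd s11
  have s1M := cast_dvd ((Dvd.intro _ rfl).trans s12)
  have s1b := cast_dvd (((Dvd.intro _ rfl).trans (Dvd.intro_left _ rfl)).trans s12)
  have s1c := cast_dvd (((Dvd.intro_left _ rfl).trans (Dvd.intro_left _ rfl)).trans s12)
  have s21' := cast_dvd s21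
  have s2M := cast_dvd ((Dvd.intro _ rfl).trans s22)
  have s2b := cast_dvd (((Dvd.intro _ rfl).trans (Dvd.intro_left _ rfl)).trans s22)
  have s2c := cast_dvd (((Dvd.intro_left _ rfl).trans (Dvd.intro_left _ rfl)).trans s22)
  push_cast at sM1' sM20 sM21 sM22 s01' s0M s0b s0c s11' s1M s1b s1c s21' s2M s2b s2c
  refine ⟨sM * α0 + s1 + s2, -(sM * γ0) - s0 - s2, ?_, ?_, ?_, ?_, ?_, ?_, ?_, ?_⟩
  · have e1 : (sM : 𝓞 K) * α0 + s1 + s2 - α0 = (sM - 1) * α0 + s1 + s2 := by ring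
    rw [e1]
    exact dvd_add (dvd_add (sM1'.mul_right _) s1M) s2M
  · have e1 : -((sM : 𝓞 K) * γ0) - s0 - s2 + γ0 = -((sM - 1) * γ0) - s0 - s2 := by ring
    rw [e1]
    exact dvd_sub (dvd_sub ((dvd_neg).2 (sM1'.mul_right _)) s0M) s2M
  · exact dvd_add (dvd_add (sM20.mul_right _) s1b) s2b
  · have e1 : -((sM : 𝓞 K) * γ0) - s0 - s2 + 1 = -(sM * γ0) - (s0 - 1) - s2 := by ring
    rw [e1]
    exact dvd_sub (dvd_sub ((dvd_neg).2 (sM20.mul_right _)) s01') s2b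
  · exact dvd_sub (dvd_sub ((dvd_neg).2 (sM21.mul_right _)) s0b) s2c
  · have e1 : (sM : 𝓞 K) * α0 + s1 + s2 - 1 = sM * α0 + (s1 - 1) + s2 := by ring
    rw [e1]
    exact dvd_add (dvd_add (sM21.mul_right _) s11') s2c
  · have e1 : (sM : 𝓞 K) * α0 + s1 + s2 + (-(sM * γ0) - s0 - s2) =
        sM * α0 + s1 - sM * γ0 - s0 := by ring
    rw [e1]
    exact dvd_sub (dvd_sub (dvd_add (sM22.mul_right _) s1c) (sM22.mul_right _)) s0c
  · have e1 : (sM : 𝓞 K) * α0 + s1 + s2 - 1 = sM * α0 + s1 + (s2 - 1) := by ring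
    rw [e1]
    exact dvd_add (dvd_add (sM22.mul_right _) s1c) s21'

theorem nap_bound (w : InfinitePlace K) (W : ℕ) (p q : ℤ) {U R : ℝ} (hU : 0 ≤ U)
    (hp : |(p : ℝ)| ≤ U) (hq : |(q : ℝ)| ≤ U) {A B : mixedEmbedding.mixedSpace K}
    (hA : mixedEmbedding.normAtPlace w A ≤ R) (hB : mixedEmbedding.normAtPlace w B ≤ R) :
    mixedEmbedding.normAtPlace w ((W : ℝ) • ((p : ℝ) • A + (q : ℝ) • B)) ≤ W * (2 * U * R) := by
  rw [mixedEmbedding.normAtPlace_smul, Nat.abs_cast]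
  apply mul_le_mul_of_nonneg_left _ (Nat.cast_nonneg _)
  refine (mixedEmbedding.normAtPlace_add_le w _ _).trans ?_
  rw [mixedEmbedding.normAtPlace_smul, mixedEmbedding.normAtPlace_smul]
  have hA0 := mixedEmbedding.normAtPlace_nonneg w A
  have hB0 := mixedEmbedding.normAtPlace_nonneg w B
  have h1 := mul_le_mul hp hA hA0 hU
  have h2 := mul_le_mul hq hB hB0 hU
  linarith

theorem nap_nat (w : InfinitePlace K) (i : ℕ) :
    mixedEmbedding.normAtPlace w (mixedEmbedding K ((i : ℕ) : K)) = i := by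
  have h : mixedEmbedding K ((i : ℕ) : K) = (i : ℝ) • (1 : mixedEmbedding.mixedSpace K) := by
    rw [map_natCast, Nat.cast_smul_eq_nsmul, nsmul_eq_mul, mul_one]
  rw [h, mixedEmbedding.normAtPlace_smul, map_one, mul_one, Nat.abs_cast]

theorem sol {E : Type*} [AddCommGroup E] [Module ℝ E] (W D p q r s : ℝ) (hW : W ≠ 0) (hD : D ≠ 0)
    (hDe : D = p * s - q * r) (v0 v1 : E) :
    W • (p • ((W * D)⁻¹ • (s • v0 - r • v1)) + r • ((W * D)⁻¹ • (p • v1 - q • v0))) = v0 ∧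
    W • (q • ((W * D)⁻¹ • (s • v0 - r • v1)) + s • ((W * D)⁻¹ • (p • v1 - q • v0))) = v1 := by
  have h1 : W * (W * D)⁻¹ * D = 1 := by field_simp
  constructor
  · have h2 : W • (p • ((W * D)⁻¹ • (s • v0 - r • v1)) + r • ((W * D)⁻¹ • (p • v1 - q • v0))) =
        (W * (W * D)⁻¹ * (p * s - q * r)) • v0 := by module
    rw [h2, ← hDe, h1, one_smul]
  · have h2 : W • (q • ((W * D)⁻¹ • (s • v0 - r • v1)) + s • ((W * D)⁻¹ • (p • v1 - q • v0))) =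
        (W * (W * D)⁻¹ * (p * s - q * r)) • v1 := by module
    rw [h2, ← hDe, h1, one_smul]

/-- **A pair near a point.** -/
theorem exists_pt (hC : ∃ C : ℝ, 0 ≤ C ∧
      ∀ t : mixedEmbedding.mixedSpace K, ∃ k : 𝓞 K, ∀ w : InfinitePlace K,
        mixedEmbedding.normAtPlace w (mixedEmbedding K (k : K) - t) ≤ C) :
    ∃ C : ℝ, 0 ≤ C ∧ ∀ (P0 M : ℕ) (b : Fin 3 → ℕ) (e : Fin 3 → ℕ) (Z : Matrix (Fin 2) (Fin 2) ℤ)
    (α0 γ0 : 𝓞 K) (y0 y1 : mixedEmbedding.mixedSpace K) (J X ω : ℕ) (U Y : ℝ),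
    16 * (Module.finrank ℚ K) ^ 2 ≤ P0 → (∀ q : ℕ, q.Prime → q ≤ P0 → q ∣ M) → 0 < M →
    (∀ i, (b i).Prime) → (∀ i j, i ≠ j → b i ≠ b j) → (∀ i, M < b i) →
    (∀ i, 1 ≤ e i) → (∀ j, (b 0 : ℤ) ^ e 0 ∣ Z j 0) → (∀ j, (b 1 : ℤ) ^ e 1 ∣ Z j 1) →
    (∀ j, (b 2 : ℤ) ^ e 2 ∣ Z j 0 + Z j 1) → (∀ j l, |(Z j l : ℝ)| ≤ U) → 0 ≤ U → 0 ≤ Y →
    Z.det ≠ 0 →
    (∀ p : ℕ, p.Prime → P0 < p → (∀ i, ¬ p ∣ b i) → ¬ (p : ℤ) ∣ Z.det) →
    (∀ w, mixedEmbedding.normAtPlace w y0 ≤ Y) → (∀ w, mixedEmbedding.normAtPlace w y1 ≤ Y) →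
    4 * (1 + Module.finrank ℚ K * ω) ≤ J →
    (2 * U * (Y + M * b 0 * b 1 * b 2 * (2 * U * (C + J)))) ^ (Module.finrank ℚ K) ≤ X →
    X < J ^ (ω + 1) →
    ∃ z0 z1 : 𝓞 K, (M : 𝓞 K) ∣ z0 - α0 ∧ (M : 𝓞 K) ∣ z1 + γ0 ∧
      (b 0 : 𝓞 K) ^ e 0 ∣ z0 ∧ (b 1 : 𝓞 K) ^ e 1 ∣ z1 ∧ (b 2 : 𝓞 K) ^ e 2 ∣ z0 + z1 ∧
      z0 ≠ 0 ∧ z1 ≠ 0 ∧ z0 + z1 ≠ 0 ∧
      (∀ w, mixedEmbedding.normAtPlace w (mixedEmbedding K (z0 : K) - y0) ≤
        M * b 0 * b 1 * b 2 * (2 * U * (C + J))) ∧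
      (∀ w, mixedEmbedding.normAtPlace w (mixedEmbedding K (z1 : K) - y1) ≤
        M * b 0 * b 1 * b 2 * (2 * U * (C + J))) ∧
      ∀ v : HeightOneSpectrum (𝓞 K), z0 ∈ v.asIdeal → z1 ∈ v.asIdeal →
        (M : 𝓞 K) ∈ v.asIdeal := by
  obtain ⟨C, hC0, hCk⟩ := hC
  refine ⟨C, hC0, ?_⟩
  intro P0 M b e Z α0 γ0 y0 y1 J X ω U Y hP0 hPM hM hbp hbi hbM he hZ0 hZ1 hZ2 hZU hU hY hdet hdetp
    hy0 hy1 hJ hX hω
  have hb2 : ∀ i, 2 ≤ b i := fun i => (hbp i).two_le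
  have hcopM : ∀ i, Nat.Coprime M (b i) := by
    intro i
    rw [Nat.coprime_comm, (hbp i).coprime_iff_not_dvd]
    intro h
    have := Nat.le_of_dvd hM h
    have := hbM i
    omega
  have hcopb : ∀ i j, i ≠ j → Nat.Coprime (b i) (b j) := fun i j hij =>
    (Nat.coprime_primes (hbp i) (hbp j)).2 (hbi i j hij)
  obtain ⟨r0, r1, hr1, hr2, hr3, hr4, hr5, hr6, hr7, hr8⟩ := base hcopM hcopb e α0 γ0
  set W : ℕ := M * b 0 * b 1 * b 2 with hW
  have hb0 : ∀ i, 0 < b i := fun i => (hbp i).pos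
  have hW0 : 0 < W := by
    have := hb0 0; have := hb0 1; have := hb0 2
    positivity
  have hWR : (0 : ℝ) < W := by exact_mod_cast hW0
  have hWcast : (M : ℝ) * b 0 * b 1 * b 2 = W := by rw [hW]; push_cast; ring
  rw [hWcast] at hX ⊢
  set D : ℤ := Z.det with hD
  have hDe : D = Z 0 0 * Z 1 1 - Z 0 1 * Z 1 0 := by rw [hD, Matrix.det_fin_two]
  have hDR : (D : ℝ) ≠ 0 := by exact_mod_cast hdet
  have hDeR : (D : ℝ) = Z 0 0 * Z 1 1 - Z 0 1 * Z 1 0 := by rw [hDe]; push_cast; ring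
  -- real coordinates
  set v0 : mixedEmbedding.mixedSpace K := y0 - mixedEmbedding K (r0 : K) with hv0
  set v1 : mixedEmbedding.mixedSpace K := y1 - mixedEmbedding K (r1 : K) with hv1
  set t0 : mixedEmbedding.mixedSpace K :=
    ((W : ℝ) * D)⁻¹ • ((Z 1 1 : ℝ) • v0 - (Z 1 0 : ℝ) • v1) with ht0
  set t1 : mixedEmbedding.mixedSpace K :=
    ((W : ℝ) * D)⁻¹ • ((Z 0 0 : ℝ) • v1 - (Z 0 1 : ℝ) • v0) with ht1
  obtain ⟨κ0, hκ0⟩ := hCk t0
  obtain ⟨κ1, hκ1⟩ := hCk t1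
  set t : ℤ := W * D with ht
  have ht_ne : t ≠ 0 := mul_ne_zero (by exact_mod_cast hW0.ne') hdet
  set a0 : 𝓞 K := (Z 1 1 : 𝓞 K) * r0 - (Z 1 0 : 𝓞 K) * r1 + (t : 𝓞 K) * κ0 with ha0
  set a1 : 𝓞 K := (Z 0 0 : 𝓞 K) * r1 - (Z 0 1 : 𝓞 K) * r0 + (t : 𝓞 K) * κ1 with ha1
  obtain ⟨F, hF1, hF2, hF3⟩ := norm_poly a0
  obtain ⟨G, hG1, hG2, hG3⟩ := norm_poly a1
  set zz0 : ℕ → ℕ → 𝓞 K := fun i j =>
    r0 + (W : 𝓞 K) * ((κ0 + i) * (Z 0 0 : 𝓞 K) + (κ1 + j) * (Z 1 0 : 𝓞 K)) with hzz0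
  set zz1 : ℕ → ℕ → 𝓞 K := fun i j =>
    r1 + (W : 𝓞 K) * ((κ0 + i) * (Z 0 1 : 𝓞 K) + (κ1 + j) * (Z 1 1 : 𝓞 K)) with hzz1
  have hcr0 : ∀ i j : ℕ, (Z 1 1 : 𝓞 K) * zz0 i j - (Z 1 0 : 𝓞 K) * zz1 i j =
      a0 + ((t * i : ℤ) : 𝓞 K) := by
    intro i j
    simp only [hzz0, hzz1, ha0, ht]
    rw [hDe]
    push_cast
    ring
  have hcr1 : ∀ i j : ℕ, (Z 0 0 : 𝓞 K) * zz1 i j - (Z 0 1 : 𝓞 K) * zz0 i j =
      a1 + ((t * j : ℤ) : 𝓞 K) := by
    intro i j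
    simp only [hzz0, hzz1, ha1, ht]
    rw [hDe]
    push_cast
    ring
  -- the distances
  have hintR : ∀ n : ℤ, mixedEmbedding K ((n : 𝓞 K) : K) = ((n : ℝ)) •
      (1 : mixedEmbedding.mixedSpace K) := by
    intro n
    have e1 : (((n : 𝓞 K)) : K) = (n : K) := by push_cast; rfl
    rw [e1, map_intCast, Int.cast_smul_eq_zsmul, zsmul_eq_mul, mul_one]
  obtain ⟨hs0, hs1⟩ := sol (W : ℝ) (D : ℝ) (Z 0 0) (Z 0 1) (Z 1 0) (Z 1 1) hWR.ne' hDR hDeR v0 v1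
  rw [← ht0, ← ht1] at hs0 hs1
  have hdiff0 : ∀ i j : ℕ, mixedEmbedding K (zz0 i j : K) - y0 =
      (W : ℝ) • (((Z 0 0 : ℤ) : ℝ) • (mixedEmbedding K (κ0 : K) - t0 +
        mixedEmbedding K ((i : ℕ) : K)) +
        ((Z 1 0 : ℤ) : ℝ) • (mixedEmbedding K (κ1 : K) - t1 + mixedEmbedding K ((j : ℕ) : K))) := by
    intro i j
    have e1 : mixedEmbedding K (zz0 i j : K) = mixedEmbedding K (r0 : K) + (W : ℝ) •
        (((Z 0 0 : ℤ) : ℝ) • (mixedEmbedding K (κ0 : K) + mixedEmbedding K ((i : ℕ) : K)) +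
        ((Z 1 0 : ℤ) : ℝ) • (mixedEmbedding K (κ1 : K) + mixedEmbedding K ((j : ℕ) : K))) := by
      simp only [hzz0]
      push_cast
      simp only [map_add, map_mul, map_natCast, map_intCast]
      rw [Nat.cast_smul_eq_nsmul, nsmul_eq_mul, Int.cast_smul_eq_zsmul, zsmul_eq_mul,
        Int.cast_smul_eq_zsmul, zsmul_eq_mul]
      ring
    have e2 : y0 = v0 + mixedEmbedding K (r0 : K) := by rw [hv0]; abel
    rw [e1, e2, ← hs0]
    module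
  have hdiff1 : ∀ i j : ℕ, mixedEmbedding K (zz1 i j : K) - y1 =
      (W : ℝ) • (((Z 0 1 : ℤ) : ℝ) • (mixedEmbedding K (κ0 : K) - t0 +
        mixedEmbedding K ((i : ℕ) : K)) +
        ((Z 1 1 : ℤ) : ℝ) • (mixedEmbedding K (κ1 : K) - t1 + mixedEmbedding K ((j : ℕ) : K))) := by
    intro i j
    have e1 : mixedEmbedding K (zz1 i j : K) = mixedEmbedding K (r1 : K) + (W : ℝ) •
        (((Z 0 1 : ℤ) : ℝ) • (mixedEmbedding K (κ0 : K) + mixedEmbedding K ((i : ℕ) : K)) +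
        ((Z 1 1 : ℤ) : ℝ) • (mixedEmbedding K (κ1 : K) + mixedEmbedding K ((j : ℕ) : K))) := by
      simp only [hzz1]
      push_cast
      simp only [map_add, map_mul, map_natCast, map_intCast]
      rw [Nat.cast_smul_eq_nsmul, nsmul_eq_mul, Int.cast_smul_eq_zsmul, zsmul_eq_mul,
        Int.cast_smul_eq_zsmul, zsmul_eq_mul]
      ring
    have e2 : y1 = v1 + mixedEmbedding K (r1 : K) := by rw [hv1]; abel
    rw [e1, e2, ← hs1]
    module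
  have hA : ∀ (w : InfinitePlace K) (i : ℕ), i < J → mixedEmbedding.normAtPlace w
      (mixedEmbedding K (κ0 : K) - t0 + mixedEmbedding K ((i : ℕ) : K)) ≤ C + J := by
    intro w i hi
    refine (mixedEmbedding.normAtPlace_add_le w _ _).trans ?_
    rw [nap_nat]
    have h1 : (i : ℝ) ≤ J := by exact_mod_cast hi.le
    have := hκ0 w
    linarith
  have hB : ∀ (w : InfinitePlace K) (i : ℕ), i < J → mixedEmbedding.normAtPlace w
      (mixedEmbedding K (κ1 : K) - t1 + mixedEmbedding K ((i : ℕ) : K)) ≤ C + J := by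
    intro w i hi
    refine (mixedEmbedding.normAtPlace_add_le w _ _).trans ?_
    rw [nap_nat]
    have h1 : (i : ℝ) ≤ J := by exact_mod_cast hi.le
    have := hκ1 w
    linarith
  have hdist0 : ∀ i j : ℕ, i < J → j < J → ∀ w : InfinitePlace K, mixedEmbedding.normAtPlace w
      (mixedEmbedding K (zz0 i j : K) - y0) ≤ W * (2 * U * (C + J)) := fun i j hi hj w => by
    rw [hdiff0]
    exact nap_bound w W _ _ hU (hZU 0 0) (hZU 1 0) (hA w i hi) (hB w j hj)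
  have hdist1 : ∀ i j : ℕ, i < J → j < J → ∀ w : InfinitePlace K, mixedEmbedding.normAtPlace w
      (mixedEmbedding K (zz1 i j : K) - y1) ≤ W * (2 * U * (C + J)) := fun i j hi hj w => by
    rw [hdiff1]
    exact nap_bound w W _ _ hU (hZU 0 1) (hZU 1 1) (hA w i hi) (hB w j hj)
  have hE0 : 0 ≤ (W : ℝ) * (2 * U * (C + J)) := by positivity
  have hsz : ∀ (w : InfinitePlace K) (z : 𝓞 K) (y : mixedEmbedding.mixedSpace K),
      mixedEmbedding.normAtPlace w y ≤ Y →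
      mixedEmbedding.normAtPlace w (mixedEmbedding K (z : K) - y) ≤ W * (2 * U * (C + J)) →
      w (z : K) ≤ Y + W * (2 * U * (C + J)) := by
    intro w z y h1 h2
    rw [← mixedEmbedding.normAtPlace_apply w (z : K)]
    have h3 : mixedEmbedding K (z : K) = y + (mixedEmbedding K (z : K) - y) := by abel
    rw [h3]
    exact (mixedEmbedding.normAtPlace_add_le w _ _).trans (by linarith)
  -- the pair
  have hJ0 : 0 < J := by omega
  obtain ⟨i, j, hi, hj, hne, hgood⟩ := exists_pair (d := Module.finrank ℚ K) (J := J) (P0 := P0)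
    (X := X) (ω := ω) Module.finrank_pos hP0 hJ hF1 hG1 hF2.le hG2.le (t := t) (by
      intro i j h1 h2
      rw [hF3, Algebra.norm_eq_zero_iff] at h1 h2
      have h3 : ((t * i : ℤ) : 𝓞 K) = ((t * j : ℤ) : 𝓞 K) := by
        linear_combination h1 - h2
      have h4 : t * i = t * j := by exact_mod_cast h3
      exact_mod_cast mul_left_cancel₀ ht_ne h4) (by
      intro i hi
      rw [hF3, ← hcr0 i 0, ← Ideal.absNorm_span_singleton]
      have h1 : (Ideal.absNorm (Ideal.span {(Z 1 1 : 𝓞 K) * zz0 i 0 -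
          (Z 1 0 : 𝓞 K) * zz1 i 0}) : ℝ) ≤
          (2 * U * (Y + W * (2 * U * (C + J)))) ^ Module.finrank ℚ K := by
        apply norm_le
        intro w
        have h2 := hsz w _ _ (hy0 w) (hdist0 i 0 hi hJ0 w)
        have h3 := hsz w _ _ (hy1 w) (hdist1 i 0 hi hJ0 w)
        have hwi : ∀ n : ℤ, w (((n : 𝓞 K)) : K) = |(n : ℝ)| := by
          intro n
          rw [← mixedEmbedding.normAtPlace_apply, hintR, mixedEmbedding.normAtPlace_smul, map_one,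
            mul_one]
        have e1 : (((Z 1 1 : 𝓞 K) * zz0 i 0 - (Z 1 0 : 𝓞 K) * zz1 i 0 : 𝓞 K) : K) =
            ((Z 1 1 : 𝓞 K) : K) * (zz0 i 0 : K) + -(((Z 1 0 : 𝓞 K) : K) * (zz1 i 0 : K)) := by
          push_cast
          ring
        rw [e1]
        refine (w.1.add_le _ _).trans ?_
        have e2 : w.1 (-(((Z 1 0 : 𝓞 K) : K) * (zz1 i 0 : K))) =
          w ((Z 1 0 : 𝓞 K) : K) * w (zz1 i 0 : K) := by
          rw [w.1.map_neg, w.1.map_mul]; rfl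
        have e3 : w.1 (((Z 1 1 : 𝓞 K) : K) * (zz0 i 0 : K)) =
          w ((Z 1 1 : 𝓞 K) : K) * w (zz0 i 0 : K) := by
          rw [w.1.map_mul]; rfl
        rw [e2, e3, hwi, hwi]
        have h4 := mul_le_mul (hZU 1 1) h2 (apply_nonneg w _) hU
        have h5 := mul_le_mul (hZU 1 0) h3 (apply_nonneg w _) hU
        linarith
      exact_mod_cast h1.trans hX) hω
  have cast_dvd : ∀ {u v : ℤ}, u ∣ v → (u : 𝓞 K) ∣ (v : 𝓞 K) := by
    rintro u v ⟨c, rfl⟩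
    push_cast
    exact Dvd.intro _ rfl
  have hMW : (M : 𝓞 K) ∣ (W : 𝓞 K) := by
    rw [hW]; push_cast
    exact ((Dvd.intro _ rfl).trans (Dvd.intro _ rfl)).trans (Dvd.intro _ rfl)
  have hbW : ∀ i, (b i : 𝓞 K) ∣ (W : 𝓞 K) := by
    intro i
    rw [hW]; push_cast
    fin_cases i
    · exact ((Dvd.intro_left _ rfl).trans (Dvd.intro _ rfl)).trans (Dvd.intro _ rfl)
    · exact (Dvd.intro_left _ rfl).trans (Dvd.intro _ rfl)
    · exact Dvd.intro_left _ rfl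
  have hpow : ∀ i, (b i : 𝓞 K) ∣ (b i : 𝓞 K) ^ e i := fun i =>
    dvd_pow_self _ (by have := he i; omega)
  have c0 : (b 0 : 𝓞 K) ∣ zz1 i j + 1 := by
    have e1 : zz1 i j + 1 = (r1 + 1) + (W : 𝓞 K) *
        ((κ0 + i) * (Z 0 1 : 𝓞 K) + (κ1 + j) * (Z 1 1 : 𝓞 K)) := by
      simp only [hzz1]; ring
    rw [e1]
    exact dvd_add ((hpow 0).trans hr4) ((hbW 0).mul_right _)
  have c0' : (b 0 : 𝓞 K) ∣ zz0 i j :=
    dvd_add ((hpow 0).trans hr3) ((hbW 0).mul_right _)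
  have c1 : (b 1 : 𝓞 K) ∣ zz0 i j - 1 := by
    have e1 : zz0 i j - 1 = (r0 - 1) + (W : 𝓞 K) *
        ((κ0 + i) * (Z 0 0 : 𝓞 K) + (κ1 + j) * (Z 1 0 : 𝓞 K)) := by
      simp only [hzz0]; ring
    rw [e1]
    exact dvd_add ((hpow 1).trans hr6) ((hbW 1).mul_right _)
  have c2 : (b 2 : 𝓞 K) ∣ zz0 i j - 1 := by
    have e1 : zz0 i j - 1 = (r0 - 1) + (W : 𝓞 K) *
        ((κ0 + i) * (Z 0 0 : 𝓞 K) + (κ1 + j) * (Z 1 0 : 𝓞 K)) := by
      simp only [hzz0]; ring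
    rw [e1]
    exact dvd_add ((hpow 2).trans hr8) ((hbW 2).mul_right _)
  refine ⟨zz0 i j, zz1 i j, ?_, ?_, ?_, ?_, ?_, ?_, ?_, ?_, hdist0 i j hi hj, hdist1 i j hi hj, ?_⟩
  · have e1 : zz0 i j - α0 = (r0 - α0) + (W : 𝓞 K) *
        ((κ0 + i) * (Z 0 0 : 𝓞 K) + (κ1 + j) * (Z 1 0 : 𝓞 K)) := by
      simp only [hzz0]; ring
    rw [e1]
    exact dvd_add hr1 (hMW.mul_right _)
  · have e1 : zz1 i j + γ0 = (r1 + γ0) + (W : 𝓞 K) *
        ((κ0 + i) * (Z 0 1 : 𝓞 K) + (κ1 + j) * (Z 1 1 : 𝓞 K)) := by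
      simp only [hzz1]; ring
    rw [e1]
    exact dvd_add hr2 (hMW.mul_right _)
  · have g0 := cast_dvd (hZ0 0)
    have g1 := cast_dvd (hZ0 1)
    push_cast at g0 g1
    exact dvd_add hr3 ((dvd_add (g0.mul_left _) (g1.mul_left _)).mul_left _)
  · have g0 := cast_dvd (hZ1 0)
    have g1 := cast_dvd (hZ1 1)
    push_cast at g0 g1
    exact dvd_add hr5 ((dvd_add (g0.mul_left _) (g1.mul_left _)).mul_left _)
  · have g0 := cast_dvd (hZ2 0)
    have g1 := cast_dvd (hZ2 1)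
    push_cast at g0 g1
    have e1 : zz0 i j + zz1 i j = (r0 + r1) + (W : 𝓞 K) *
        ((κ0 + i) * ((Z 0 0 : 𝓞 K) + (Z 0 1 : 𝓞 K)) +
          (κ1 + j) * ((Z 1 0 : 𝓞 K) + (Z 1 1 : 𝓞 K))) := by
      simp only [hzz0, hzz1]; ring
    rw [e1]
    exact dvd_add hr7 ((dvd_add (g0.mul_left _) (g1.mul_left _)).mul_left _)
  · intro h
    rw [h, zero_sub, dvd_neg] at c1
    exact not_dvd_one (hb2 1) c1
  · intro h
    rw [h, zero_add] at c0
    exact not_dvd_one (hb2 0) c0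
  · intro h
    have e1 : (1 : 𝓞 K) = (zz1 i j + 1) - (zz0 i j + zz1 i j) + zz0 i j := by ring
    rw [h, sub_zero] at e1
    apply not_dvd_one (K := K) (hb2 0)
    rw [e1]
    exact dvd_add c0 c0'
  · intro v hv0 hv1
    obtain ⟨q, hq, hqi, hqN⟩ := below v
    by_contra hM0
    have hqM : ¬ q ∣ M := by
      intro h
      apply hM0
      have := (hqi (M : ℤ)).2 (by exact_mod_cast h)
      exact_mod_cast this
    have hqP : P0 < q := by
      by_contra h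
      exact hqM (hPM q hq (by omega))
    have hone : (1 : 𝓞 K) ∉ v.asIdeal := fun h =>
      v.isPrime.ne_top ((Ideal.eq_top_iff_one _).2 h)
    have hmem : ∀ i, q ∣ b i → (b i : 𝓞 K) ∈ v.asIdeal := by
      intro i h
      have := (hqi (b i : ℤ)).2 (by exact_mod_cast h)
      exact_mod_cast this
    have hqb : ∀ i, ¬ q ∣ b i := by
      intro i' h
      have h1 := hmem i' h
      fin_cases i'
      · have h2 := Ideal.mem_of_dvd _ c0 h1
        apply hone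
        have e1 : (1 : 𝓞 K) = (zz1 i j + 1) - zz1 i j := by ring
        rw [e1]
        exact Ideal.sub_mem _ h2 hv1
      · have h2 := Ideal.mem_of_dvd _ c1 h1
        apply hone
        have e1 : (1 : 𝓞 K) = zz0 i j - (zz0 i j - 1) := by ring
        rw [e1]
        exact Ideal.sub_mem _ hv0 h2
      · have h2 := Ideal.mem_of_dvd _ c2 h1
        apply hone
        have e1 : (1 : 𝓞 K) = zz0 i j - (zz0 i j - 1) := by ring
        rw [e1]
        exact Ideal.sub_mem _ hv0 h2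
    have hqt : ¬ (q : ℤ) ∣ t := by
      intro h
      rw [ht] at h
      rcases (Nat.prime_iff_prime_int.1 hq).dvd_or_dvd h with h1 | h1
      · have h2 : q ∣ W := by exact_mod_cast h1
        rw [hW] at h2
        rcases (hq.dvd_mul).1 h2 with h3 | h3
        · rcases (hq.dvd_mul).1 h3 with h4 | h4
          · rcases (hq.dvd_mul).1 h4 with h5 | h5
            · exact hqM h5
            · exact hqb 0 h5
          · exact hqb 1 h4
        · exact hqb 2 h3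
      · exact hdetp q hq hqP hqb h1
    apply hgood q hq hqP hqt
    · rw [hF3, ← hcr0 i j]
      apply hqN
      exact Ideal.sub_mem _ (Ideal.mul_mem_left _ _ hv0) (Ideal.mul_mem_left _ _ hv1)
    · rw [hG3, ← hcr1 i j]
      apply hqN
      exact Ideal.sub_mem _ (Ideal.mul_mem_left _ _ hv1) (Ideal.mul_mem_left _ _ hv0)

end Pool.Agent.H34x.KF
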