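import Pool.Agent.H34x.KF.ShortT
import Pool.Agent.H34x.KF.Point
import Pool.Agent.H34x.KF.Fin

/-!
# Numbers with prescribed conductors near a point
-/

set_option autoImplicit false

namespace Pool.Agent.H34x.KF

open NumberField IsDedekindDomain Finset Filter
open Pool.Agent.H34x.NT (PP ev_le alpha_red primes PP_castSucc PP_last)

variable {K : Type} [Field K] [NumberField K]

/-- a quotient of an integer and a natural number -/
theorem exists_frac (y : K) : ∃ (α0 : 𝓞 K) (g : ℕ), 0 < g ∧ y = (α0 : K) / (g : K) := by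
  obtain ⟨n, hn, a, ha, -⟩ :=
    NumberField.exists_nat_ne_zero_exists_integer_mul_eq_and_absNorm_span_eq_pow y
  refine ⟨a, n, Nat.pos_of_ne_zero hn, ?_⟩
  have hnK : (n : K) ≠ 0 := by exact_mod_cast hn
  rw [← ha]
  field_simp

theorem cond_bound {x : K} {β : 𝓞 K} (hβ : β ≠ 0)
    (hx : ∀ v : HeightOneSpectrum (𝓞 K), FinitePlace.mk v x < 1 → β ∈ v.asIdeal) {b e : ℕ}
    (hb : 2 ≤ b) (hd : (b : 𝓞 K) ^ e ∣ β) {T R a : ℝ} (hT : 1 ≤ T) (hR : 1 ≤ R)
    (h2 : ∀ w : InfinitePlace K, w (β : K) ≤ 4 * R * T)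
    (he : 4 * b * T ^ a ≤ (b : ℝ) ^ e) :
    cond x ≤ Real.log R + (1 - a) * Real.log T := by
  have hT0 : 0 < T := by linarith
  have hR0 : 0 < R := by linarith
  have hb0 : (0 : ℝ) < b := by exact_mod_cast (by omega : 0 < b)
  have h3 := cond_le hβ hx (by omega) hd (A := 4 * R * T) (by positivity) h2
  have h4 : Real.log (4 * R * T) = Real.log 4 + Real.log R + Real.log T := by
    rw [Real.log_mul (by positivity) hT0.ne', Real.log_mul (by norm_num) hR0.ne']
  have h5 : Real.log 4 + Real.log b + a * Real.log T ≤ e * Real.log b := by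
    have h6 : (0 : ℝ) < 4 * b * T ^ a := by
      have := Real.rpow_pos_of_pos hT0 a
      positivity
    have h7 := Real.log_le_log h6 he
    rw [Real.log_pow, Real.log_mul (by positivity) (Real.rpow_pos_of_pos hT0 _).ne',
      Real.log_mul (by norm_num) hb0.ne', Real.log_rpow hT0] at h7
    exact h7
  rw [h4] at h3
  linarith

theorem main (α : Fin 3 → ℝ) (h0 : ∀ i, 0 < α i) (h1 : ∀ i, α i ≤ 1) (hs : 1 < ∑ i, α i)
    {τ : ℝ} (hτα : ∀ i, τ < α i) (hτs : 2 * τ < ∑ i, α i - 1)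
    (ξ : mixedEmbedding.mixedSpace K) (y : K) {N : ℕ} (hN : 0 < N) (B : ℝ) :
    ∃ x : K, x ≠ 0 ∧ x ≠ 1 ∧ B ≤ height x ∧
      (∀ w : InfinitePlace K, mixedEmbedding.normAtPlace w (mixedEmbedding K x - ξ) ≤
        Real.exp (-τ * height x)) ∧
      (∀ v : HeightOneSpectrum (𝓞 K), FinitePlace.mk v (N : K) < 1 →
        FinitePlace.mk v (x - y) ≤ FinitePlace.mk v (N : K)) ∧
      cond x ≤ α 0 * height x ∧ cond x⁻¹ ≤ α 1 * height x ∧ cond (x - 1) ≤ α 2 * height x := by
  classical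
  set d : ℕ := Module.finrank ℚ K with hd
  have hd0 : 0 < d := Module.finrank_pos
  -- exponents
  obtain ⟨i0, -, hi0⟩ := Finset.exists_min_image (univ : Finset (Fin 3)) α univ_nonempty
  set M0 : ℝ := min ((∑ i, α i - 1) / 2) (α i0) with hM0
  have hM01 : M0 ≤ (∑ i, α i - 1) / 2 := min_le_left _ _
  have hM02 : ∀ i, M0 ≤ α i := fun i => (min_le_right _ _).trans (hi0 i (mem_univ _))
  set τ' : ℝ := max τ 0 with hτ'
  have hτ'0 : 0 ≤ τ' := le_max_right _ _
  have hτ'1 : τ ≤ τ' := le_max_left _ _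
  have hM03 : τ' < M0 := by
    refine max_lt (lt_min ?_ (hτα i0)) (lt_min (by linarith) (h0 i0))
    linarith
  obtain ⟨τ2, hτ21, hτ22⟩ := exists_between hM03
  obtain ⟨τ3, hτ31, hτ32⟩ := exists_between hτ21
  set ε : ℝ := (M0 - τ2) / 2 with hε
  have hε0 : 0 < ε := by rw [hε]; linarith
  have hτ2lt1 : τ2 < 1 := by have := hM02 0; have := h1 0; linarith
  obtain ⟨α', ha1, ha2, ha3⟩ := alpha_red (m := 2) (fun i => α i - ε) (τ := τ2) hτ2lt1
    (fun i => by have := hM02 i; rw [hε]; linarith) (by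
      rw [Finset.sum_sub_distrib]
      simp only [sum_const, card_univ, Fintype.card_fin, nsmul_eq_mul]
      push_cast
      rw [hε]
      linarith)
  set κ : ℝ := (τ3 - τ') / 2 with hκ
  have hκ0 : 0 < κ := by rw [hκ]; linarith
  have hκ1 : κ ≤ 1 := by rw [hκ]; linarith
  -- the prime powers
  obtain ⟨α0, g, hg, hy⟩ := exists_frac y
  set Q : ℕ := ⌈(Nat.factorial 2 : ℝ) * (2 * ((2 : ℕ) : ℝ) ^ 2) ^ 2⌉₊ with hQ
  set P0 : ℕ := max Q (16 * d ^ 2) with hP0
  set M' : ℕ := N * P0.factorial with hM'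
  set M : ℕ := g ^ 2 * M' with hM
  have hMpos : 0 < M := by
    have := Nat.factorial_pos P0
    positivity
  obtain ⟨b, hbp, hbi, hbM⟩ := primes M 3
  have hb2 : ∀ i, 2 ≤ b i := fun i => (hbp i).two_le
  obtain ⟨C2, hC2, hshort⟩ := short_T (m := 2) (by norm_num) b hbp hbi (fun i => 1 - α' i)
    (τ2 := τ2) (τ3 := τ3) hτ32 (by linarith) hτ2lt1 (by linarith)
    (fun i => by have := ha2 i; have := h1 i; linarith)
    (fun i => by have := ha1 i; linarith) (by
      rw [Finset.sum_sub_distrib, ha3]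
      simp
      ring)
  obtain ⟨Cp, hCp, hpt⟩ := exists_pt (near_int K)
  -- the size of `ξ`
  set R : ℝ := 1 + ∑ w : InfinitePlace K, mixedEmbedding.normAtPlace w ξ with hR
  have hRξ : ∀ w : InfinitePlace K, mixedEmbedding.normAtPlace w ξ ≤ R := by
    intro w
    have := Finset.single_le_sum (f := fun w => mixedEmbedding.normAtPlace w ξ)
      (fun w _ => mixedEmbedding.normAtPlace_nonneg _ _) (Finset.mem_univ w)
    rw [hR]
    linarith
  have hR1 : 1 ≤ R := by
    have := Finset.sum_nonneg (s := (univ : Finset (InfinitePlace K)))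
      (f := fun w => mixedEmbedding.normAtPlace w ξ)
      (fun w _ => mixedEmbedding.normAtPlace_nonneg w ξ)
    rw [hR]
    linarith
  have hR0 : 0 < R := by linarith
  set W : ℝ := (M : ℝ) * b 0 * b 1 * b 2 with hW
  have hb0 : ∀ i, (0 : ℝ) < b i := fun i => by exact_mod_cast (hbp i).pos
  have hMR : (0 : ℝ) < M := by exact_mod_cast hMpos
  have hW0 : 0 < W := by
    have := hb0 0; have := hb0 1; have := hb0 2
    rw [hW]; positivity
  set C4 : ℝ := W * (2 * C2 * (Cp + 2)) with hC4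
  have hC40 : 0 < C4 := by rw [hC4]; positivity
  set C5 : ℝ := 2 * C2 * (R + 1) with hC5
  have hC50 : 0 < C5 := by rw [hC5]; positivity
  set ω : ℕ := ⌈((2 * d + 1 : ℕ) : ℝ) / κ⌉₊ with hω
  have hωκ : ((2 * d + 1 : ℕ) : ℝ) ≤ κ * ((ω : ℝ) + 1) := by
    have e1 : ((2 * d + 1 : ℕ) : ℝ) / κ ≤ ω := Nat.le_ceil _
    have e2 : ((2 * d + 1 : ℕ) : ℝ) = κ * (((2 * d + 1 : ℕ) : ℝ) / κ) := by field_simp
    rw [e2]
    exact mul_le_mul_of_nonneg_left (by linarith) hκ0.le
  -- largeness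
  have l1 := ev_le (4 * C4) (show 1 - τ3 + κ < 1 by rw [hκ]; linarith)
  have l2 := ev_le (2 * (1 + R) * C4 * (4 * R) ^ τ') (show -τ3 + κ < -τ' by rw [hκ]; linarith)
  have l3 : ∀ᶠ T : ℝ in atTop, (Real.log R + Real.log (2 * g)) / ε ≤ Real.log T :=
    Real.tendsto_log_atTop.eventually_ge_atTop _
  have l4 : ∀ᶠ T : ℝ in atTop, max B 0 + Real.log (2 * g) ≤ Real.log T :=
    Real.tendsto_log_atTop.eventually_ge_atTop _
  have l5 : ∀ᶠ T : ℝ in atTop, C5 ^ d + 1 ≤ T := eventually_ge_atTop _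
  have l6 : ∀ᶠ T : ℝ in atTop, (4 * (1 + d * ω) : ℝ) ≤ T ^ κ :=
    (tendsto_rpow_atTop hκ0).eventually_ge_atTop _
  obtain ⟨T, ⟨e, Z, he1, he4, hZd, hZU, hZ0, hZp⟩, g1, g2, g3, g4, g5, g6, g7⟩ :=
    (hshort.and (l1.and (l2.and (l3.and (l4.and (l5.and (l6.and
      (eventually_ge_atTop 1)))))))).exists
  have hT0 : 0 < T := by linarith
  rw [Real.rpow_one] at g1
  set U : ℝ := C2 * T ^ (1 - τ3) with hU
  have hU0 : 0 ≤ U := by positivity
  have hUT : U ≤ C2 * T := by
    apply mul_le_mul_of_nonneg_left _ hC2.le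
    have := Real.rpow_le_rpow_of_exponent_le g7 (show 1 - τ3 ≤ 1 by linarith)
    rwa [Real.rpow_one] at this
  set J : ℕ := ⌈T ^ κ⌉₊ with hJ
  have hJ0 : T ^ κ ≤ J := Nat.le_ceil _
  have hTκ1 : 1 ≤ T ^ κ := Real.one_le_rpow g7 hκ0.le
  have hJ1 : (J : ℝ) ≤ T ^ κ + 1 := (Nat.ceil_lt_add_one (by positivity : 0 ≤ T ^ κ)).le
  set E : ℝ := W * (2 * U * (Cp + J)) with hE
  have hE0 : 0 ≤ E := by positivity
  have hE1 : E ≤ C4 * T ^ (1 - τ3 + κ) := by
    have e1 : Cp + J ≤ (Cp + 2) * T ^ κ := by nlinarith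
    calc E ≤ W * (2 * U * ((Cp + 2) * T ^ κ)) := by
          rw [hE]
          apply mul_le_mul_of_nonneg_left _ hW0.le
          exact mul_le_mul_of_nonneg_left e1 (by positivity)
      _ = C4 * (T ^ (1 - τ3) * T ^ κ) := by rw [hC4, hU]; ring
      _ = C4 * T ^ (1 - τ3 + κ) := by rw [← Real.rpow_add hT0]
  have hE2 : E ≤ T / 4 := by linarith
  set X : ℕ := ⌈(2 * U * (R * T + E)) ^ d⌉₊ with hX
  have hXω : X < J ^ (ω + 1) := by
    have e1 : 2 * U * (R * T + E) ≤ C5 * T ^ 2 := by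
      calc 2 * U * (R * T + E) ≤ 2 * (C2 * T) * (R * T + T) := by
            apply mul_le_mul _ _ (by positivity) (by positivity)
            · linarith
            · linarith
        _ = C5 * T ^ 2 := by rw [hC5]; ring
    have e2 : (2 * U * (R * T + E)) ^ d ≤ C5 ^ d * T ^ (2 * d) := by
      calc (2 * U * (R * T + E)) ^ d ≤ (C5 * T ^ 2) ^ d :=
            pow_le_pow_left₀ (by positivity) e1 _
        _ = C5 ^ d * T ^ (2 * d) := by rw [mul_pow, ← pow_mul]
    have e3 : (X : ℝ) < (2 * U * (R * T + E)) ^ d + 1 := Nat.ceil_lt_add_one (by positivity)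
    have e4 : (X : ℝ) < T ^ (2 * d + 1) := by
      have e5 : 1 ≤ T ^ (2 * d) := one_le_pow₀ g7
      calc (X : ℝ) < C5 ^ d * T ^ (2 * d) + T ^ (2 * d) := by linarith
        _ = (C5 ^ d + 1) * T ^ (2 * d) := by ring
        _ ≤ T * T ^ (2 * d) := mul_le_mul_of_nonneg_right g5 (by positivity)
        _ = T ^ (2 * d + 1) := by ring
    have e6 : T ^ (2 * d + 1) ≤ (J : ℝ) ^ (ω + 1) := by
      calc T ^ (2 * d + 1) = T ^ (((2 * d + 1 : ℕ) : ℝ)) := (Real.rpow_natCast _ _).symm
        _ ≤ T ^ (κ * ((ω : ℝ) + 1)) := Real.rpow_le_rpow_of_exponent_le g7 hωκ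
        _ = (T ^ κ) ^ (ω + 1) := by
            rw [Real.rpow_mul hT0.le, ← Real.rpow_natCast]
            push_cast
            rfl
        _ ≤ (J : ℝ) ^ (ω + 1) := pow_le_pow_left₀ (by positivity) hJ0 _
    exact_mod_cast e4.trans_le e6
  have hnap1 : ∀ w : InfinitePlace K, mixedEmbedding.normAtPlace w
      (-(T • (1 : mixedEmbedding.mixedSpace K))) = T := by
    intro w
    rw [mixedEmbedding.normAtPlace_neg, mixedEmbedding.normAtPlace_smul, map_one, mul_one,
      abs_of_pos hT0]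
  obtain ⟨z0, z1, hz1, hz2, hz3, hz4, hz5, hz6, hz7, hz8, hz9, hz10, hz11⟩ :=
    hpt P0 M b e Z α0 (g : 𝓞 K) (T • ξ) (-(T • 1)) J X ω U (R * T) (le_max_right _ _)
    (fun q hq hle => by
      have : q ∣ P0.factorial := (hq.dvd_factorial).2 hle
      rw [hM, hM']
      exact (this.mul_left _).mul_left _) hMpos hbp hbi hbM he1
    (fun j => by
      have := hZd j 0
      rwa [show (0 : Fin 3) = (0 : Fin 2).castSucc from rfl, PP_castSucc] at this)
    (fun j => by
      have := hZd j 1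
      rwa [show (1 : Fin 3) = (1 : Fin 2).castSucc from rfl, PP_castSucc] at this)
    (fun j => by
      have := hZd j 2
      rw [show (2 : Fin 3) = Fin.last 2 from rfl, PP_last, dvd_neg, Fin.sum_univ_two] at this
      exact this)
    hZU hU0 (by positivity) hZ0
    (fun p hp hlt hdiv => hZp p hp (lt_of_le_of_lt (le_max_left _ _) hlt) hdiv)
    (fun w => by
      rw [mixedEmbedding.normAtPlace_smul, abs_of_pos hT0, mul_comm]
      exact mul_le_mul_of_nonneg_right (hRξ w) hT0.le)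
    (fun w => by
      rw [hnap1]
      nlinarith)
    (by
      have : (4 * (1 + d * ω) : ℝ) ≤ J := g6.trans hJ0
      exact_mod_cast this)
    (Nat.le_ceil _) hXω
  rw [← hW] at hz9 hz10
  rw [← hE] at hz9 hz10
  set γ : 𝓞 K := -z1 with hγ
  have hγ0 : γ ≠ 0 := neg_ne_zero.2 hz7
  have hγK : (γ : K) ≠ 0 := by exact_mod_cast hγ0
  have hz0K : (z0 : K) ≠ 0 := by exact_mod_cast hz6
  have hιγ : mixedEmbedding K (γ : K) = -mixedEmbedding K (z1 : K) := by
    rw [hγ]; push_cast; rw [map_neg]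
  -- sizes
  have s0 : ∀ w : InfinitePlace K, w (z0 : K) ≤ R * T + E := by
    intro w
    rw [← mixedEmbedding.normAtPlace_apply w (z0 : K)]
    have h3 : mixedEmbedding K (z0 : K) = T • ξ + (mixedEmbedding K (z0 : K) - T • ξ) := by abel
    rw [h3]
    refine (mixedEmbedding.normAtPlace_add_le w _ _).trans (add_le_add ?_ (hz9 w))
    rw [mixedEmbedding.normAtPlace_smul, abs_of_pos hT0, mul_comm]
    exact mul_le_mul_of_nonneg_right (hRξ w) hT0.le
  have sdiff : ∀ w : InfinitePlace K, mixedEmbedding.normAtPlace w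
      (mixedEmbedding K (γ : K) - T • 1) ≤ E := by
    intro w
    have h3 : mixedEmbedding K (γ : K) - T • (1 : mixedEmbedding.mixedSpace K) =
        -(mixedEmbedding K (z1 : K) - -(T • 1)) := by
      rw [hιγ]; abel
    rw [h3, mixedEmbedding.normAtPlace_neg]
    exact hz10 w
  have s1 : ∀ w : InfinitePlace K, w (γ : K) ≤ T + E := by
    intro w
    rw [← mixedEmbedding.normAtPlace_apply w (γ : K)]
    have h3 : mixedEmbedding K (γ : K) = -(-(T • 1)) +
        (mixedEmbedding K (γ : K) - T • (1 : mixedEmbedding.mixedSpace K)) := by abel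
    rw [h3]
    refine (mixedEmbedding.normAtPlace_add_le w _ _).trans (add_le_add ?_ (sdiff w))
    rw [mixedEmbedding.normAtPlace_neg, hnap1]
  have s2 : ∀ w : InfinitePlace K, T - E ≤ w (γ : K) := by
    intro w
    have h3 : -(-(T • (1 : mixedEmbedding.mixedSpace K))) = mixedEmbedding K (γ : K) +
        -(mixedEmbedding K (γ : K) - T • (1 : mixedEmbedding.mixedSpace K)) := by abel
    have h4 := mixedEmbedding.normAtPlace_add_le w (mixedEmbedding K (γ : K))
      (-(mixedEmbedding K (γ : K) - T • (1 : mixedEmbedding.mixedSpace K)))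
    rw [← h3, mixedEmbedding.normAtPlace_neg, hnap1, mixedEmbedding.normAtPlace_neg,
      mixedEmbedding.normAtPlace_apply] at h4
    have := sdiff w
    linarith
  have hRT : T ≤ R * T := by nlinarith
  have A0 : ∀ w : InfinitePlace K, w (z0 : K) ≤ 4 * R * T := fun w => by
    have := s0 w
    nlinarith
  have A1 : ∀ w : InfinitePlace K, w (γ : K) ≤ 4 * R * T := fun w => by
    have := s1 w
    nlinarith
  have A2 : ∀ w : InfinitePlace K, w ((z0 + z1 : 𝓞 K) : K) ≤ 4 * R * T := fun w => by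
    have h3 : ((z0 + z1 : 𝓞 K) : K) = (z0 : K) + -(γ : K) := by rw [hγ]; push_cast; ring
    rw [h3]
    refine (w.1.add_le _ _).trans ?_
    rw [w.1.map_neg]
    have h4 := s0 w
    have h5 := s1 w
    have e1 : w.1 (z0 : K) = w (z0 : K) := rfl
    have e2 : w.1 (γ : K) = w (γ : K) := rfl
    rw [e1, e2]
    nlinarith
  -- the number
  set x : K := (z0 : K) / (γ : K) with hx
  have hgK : (g : K) ≠ 0 := by exact_mod_cast hg.ne'
  have hMγ : (M : 𝓞 K) ∣ γ - (g : 𝓞 K) := by
    have e1 : γ - (g : 𝓞 K) = -(z1 + g) := by rw [hγ]; ring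
    rw [e1, dvd_neg]
    exact hz2
  have hgmem : (g : 𝓞 K) ∈ Ideal.span {z0, γ} := gcd_mem hz6 hM hMγ (fun v hv0 hv1 => by
    apply hz11 v hv0
    rw [hγ] at hv1
    exact (neg_mem_iff).1 hv1)
  have hg2 : (0 : ℝ) < 2 * g := by
    have : (0 : ℝ) < g := by exact_mod_cast hg
    linarith
  have hlow : Real.log T - Real.log (2 * g) ≤ height x := by
    have h3 := le_height (α := z0) hγ0 (A := T / 2) (by positivity) (fun w => by
      have := s2 w
      linarith) hg hgmem
    have hgR : (0 : ℝ) < g := by exact_mod_cast hg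
    rw [Real.log_div hT0.ne' (by norm_num)] at h3
    rw [Real.log_mul (by norm_num) hgR.ne']
    linarith
  have hup : height x ≤ Real.log (4 * R * T) := height_le hγ0 A0 A1
  have hht0 : 0 ≤ height x := by
    have := le_max_right B 0
    linarith
  have hcond : ∀ (i : Fin 3) (x' : K) (β : 𝓞 K), β ≠ 0 →
      (∀ v : HeightOneSpectrum (𝓞 K), FinitePlace.mk v x' < 1 → β ∈ v.asIdeal) →
      (b i : 𝓞 K) ^ e i ∣ β → (∀ w : InfinitePlace K, w (β : K) ≤ 4 * R * T) →
      cond x' ≤ α i * height x := by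
    intro i x' β hβ hx' hdv hw
    have h3 := cond_bound hβ hx' (hb2 i) hdv g7 hR1 hw (he4 i)
    have h4 := (div_le_iff₀ hε0).1 g3
    have h5 : α i * (Real.log T - Real.log (2 * g)) ≤ α i * height x :=
      mul_le_mul_of_nonneg_left hlow (h0 i).le
    have h6 : α i * Real.log (2 * g) ≤ Real.log (2 * g) := by
      apply mul_le_of_le_one_left _ (h1 i)
      apply Real.log_nonneg
      have : (1 : ℝ) ≤ g := by exact_mod_cast hg
      linarith
    have h7 : 0 ≤ Real.log T := Real.log_nonneg g7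
    have h8 : (1 - (1 - α' i)) * Real.log T ≤ (α i - ε) * Real.log T :=
      mul_le_mul_of_nonneg_right (by have := ha2 i; linarith) h7
    nlinarith
  refine ⟨x, div_ne_zero hz0K hγK, ?_, ?_, fun w => ?_, fun v hv => ?_, ?_, ?_, ?_⟩
  · intro h
    rw [hx, div_eq_one_iff_eq hγK] at h
    apply hz8
    have h3 : z0 = γ := by exact_mod_cast h
    rw [h3, hγ]
    ring
  · have := le_max_left B 0
    linarith
  · -- the distance
    have h3 : (mixedEmbedding K x - ξ) * mixedEmbedding K (γ : K) =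
        (mixedEmbedding K (z0 : K) - T • ξ) + -(ξ * (mixedEmbedding K (γ : K) - T • 1)) := by
      have e1 : mixedEmbedding K x * mixedEmbedding K (γ : K) = mixedEmbedding K (z0 : K) := by
        rw [← map_mul, hx, div_mul_cancel₀ _ hγK]
      rw [sub_mul, e1, mul_sub, mul_smul_comm, mul_one]
      ring
    have h4 : mixedEmbedding.normAtPlace w (mixedEmbedding K x - ξ) * w (γ : K) ≤
        (1 + R) * E := by
      rw [← mixedEmbedding.normAtPlace_apply w (γ : K), ← map_mul, h3]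
      refine (mixedEmbedding.normAtPlace_add_le w _ _).trans ?_
      rw [mixedEmbedding.normAtPlace_neg, map_mul]
      have h5 := mul_le_mul (hRξ w) (sdiff w) (mixedEmbedding.normAtPlace_nonneg _ _) hR0.le
      have := hz9 w
      linarith
    have h5 : T / 2 ≤ w (γ : K) := by
      have := s2 w
      linarith
    have h6 : mixedEmbedding.normAtPlace w (mixedEmbedding K x - ξ) * (T / 2) ≤ (1 + R) * E :=
      (mul_le_mul_of_nonneg_left h5 (mixedEmbedding.normAtPlace_nonneg _ _)).trans h4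
    have h7 : (4 * R * T) ^ (-τ') ≤ Real.exp (-τ * height x) := by
      rw [Real.rpow_def_of_pos (by positivity)]
      apply Real.exp_le_exp.2
      have h8 : τ' * height x ≤ τ' * Real.log (4 * R * T) :=
        mul_le_mul_of_nonneg_left hup hτ'0
      have h9 : τ * height x ≤ τ' * height x := mul_le_mul_of_nonneg_right hτ'1 hht0
      linarith
    refine le_trans ?_ h7
    have h8 : (1 + R) * E ≤ (4 * R * T) ^ (-τ') * (T / 2) := by
      have h9 : (1 + R) * E ≤ (1 + R) * (C4 * T ^ (1 - τ3 + κ)) :=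
        mul_le_mul_of_nonneg_left hE1 (by linarith)
      refine h9.trans ?_
      have e1 : T ^ (1 - τ3 + κ) = T * T ^ (-τ3 + κ) := by
        rw [show 1 - τ3 + κ = 1 + (-τ3 + κ) by ring, Real.rpow_add hT0, Real.rpow_one]
      have e2 : (4 * R * T) ^ (-τ') = ((4 * R) ^ τ')⁻¹ * T ^ (-τ') := by
        rw [Real.mul_rpow (by positivity) hT0.le, Real.rpow_neg (by positivity) τ']
      rw [e1, e2]
      have h10 : (0 : ℝ) < (4 * R) ^ τ' := Real.rpow_pos_of_pos (by positivity) _
      have h11 : 2 * (1 + R) * C4 * T ^ (-τ3 + κ) ≤ ((4 * R) ^ τ')⁻¹ * T ^ (-τ') := by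
        rw [inv_mul_eq_div, le_div_iff₀ h10]
        calc 2 * (1 + R) * C4 * T ^ (-τ3 + κ) * (4 * R) ^ τ' =
            2 * (1 + R) * C4 * (4 * R) ^ τ' * T ^ (-τ3 + κ) := by ring
          _ ≤ _ := g2
      have h12 := mul_le_mul_of_nonneg_right h11 (by linarith : 0 ≤ T / 2)
      refine le_trans (le_of_eq ?_) h12
      ring
    exact le_of_mul_le_mul_right (h6.trans h8) (by positivity)
  · rw [hy]
    exact close hg hγ0 hM (by rw [hM']; exact Dvd.intro _ rfl) hMγ hz1 v hv
  · exact hcond 0 x z0 hz6 (fun v hv => num_mem hγ0 v hv) hz3 A0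
  · refine hcond 1 x⁻¹ γ hγ0 (fun v hv => ?_) ?_ A1
    · rw [hx, inv_div] at hv
      exact num_mem hz6 v hv
    · rw [hγ, dvd_neg]
      exact hz4
  · refine hcond 2 (x - 1) (z0 + z1) hz8 (fun v hv => ?_) hz5 A2
    have e1 : x - 1 = ((z0 + z1 : 𝓞 K) : K) / (γ : K) := by
      rw [hx, div_sub_one hγK]
      congr 1
      rw [hγ]
      push_cast
      ring
    rw [e1] at hv
    exact num_mem hγ0 v hv

end Pool.Agent.H34x.KF
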