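import Pool.Agent.H34x.KF.Ht

/-!
# Norms of translates, primes of a number field, integers near a real point
-/

set_option autoImplicit false

namespace Pool.Agent.H34x.KF

open NumberField IsDedekindDomain Finset Polynomial

variable {K : Type} [Field K] [NumberField K]

/-- the norm of `a + x` is a monic polynomial of `x` -/
theorem norm_poly (a : 𝓞 K) : ∃ P : ℤ[X], P.Monic ∧ P.natDegree = Module.finrank ℚ K ∧
    ∀ x : ℤ, P.eval x = Algebra.norm ℤ (a + (x : 𝓞 K)) := by
  classical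
  set b := RingOfIntegers.basis K with hb
  refine ⟨(Algebra.leftMulMatrix b (-a)).charpoly, Matrix.charpoly_monic _, ?_, fun x => ?_⟩
  · rw [Matrix.charpoly_natDegree_eq_dim, ← RingOfIntegers.rank K,
      Module.finrank_eq_card_chooseBasisIndex]
  · rw [Matrix.eval_charpoly, Algebra.norm_eq_matrix_det b]
    congr 1
    have h1 : (a + (x : 𝓞 K)) = algebraMap ℤ (𝓞 K) x - (-a) := by
      rw [sub_neg_eq_add, add_comm]
      simp
    rw [h1, map_sub, AlgHom.commutes]
    rfl

/-- the prime below a prime -/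
theorem below (v : HeightOneSpectrum (𝓞 K)) : ∃ q : ℕ, q.Prime ∧
    (∀ n : ℤ, (n : 𝓞 K) ∈ v.asIdeal ↔ (q : ℤ) ∣ n) ∧
    ∀ β : 𝓞 K, β ∈ v.asIdeal → (q : ℤ) ∣ Algebra.norm ℤ β := by
  have hN : Ideal.absNorm v.asIdeal ≠ 0 := fun h => v.ne_bot (Ideal.absNorm_eq_zero_iff.1 h)
  have hNm : ((Ideal.absNorm v.asIdeal : ℕ) : 𝓞 K) ∈ v.asIdeal := Ideal.absNorm_mem v.asIdeal
  have hv := v.isPrime
  -- a rational prime in `v`
  obtain ⟨q, hq, hqv⟩ : ∃ q : ℕ, q.Prime ∧ (q : 𝓞 K) ∈ v.asIdeal := by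
    have hgen : ∀ n : ℕ, n ≠ 0 → (n : 𝓞 K) ∈ v.asIdeal →
        ∃ q : ℕ, q.Prime ∧ (q : 𝓞 K) ∈ v.asIdeal := by
      intro n
      induction n using Nat.recOnMul with
      | zero => exact fun h => absurd rfl h
      | one =>
        intro _ h
        exfalso
        rw [Nat.cast_one] at h
        exact hv.ne_top ((Ideal.eq_top_iff_one _).2 h)
      | prime p hp => exact fun _ h => ⟨p, hp, h⟩
      | mul a b ha hb =>
        intro h0 h
        rw [Nat.cast_mul] at h
        rcases hv.mem_or_mem h with h1 | h1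
        · exact ha (fun h2 => h0 (by rw [h2, zero_mul])) h1
        · exact hb (fun h2 => h0 (by rw [h2, mul_zero])) h1
    exact hgen _ hN hNm
  have hiff : ∀ n : ℤ, (n : 𝓞 K) ∈ v.asIdeal ↔ (q : ℤ) ∣ n := by
    intro n
    constructor
    · intro h
      by_contra hcon
      have hc : IsCoprime (q : ℤ) n :=
        (Prime.coprime_iff_not_dvd (Nat.prime_iff_prime_int.1 hq)).2 hcon
      obtain ⟨u, w, huw⟩ := hc
      apply hv.ne_top
      rw [Ideal.eq_top_iff_one]
      have h1 : (1 : 𝓞 K) = (u : 𝓞 K) * (q : 𝓞 K) + (w : 𝓞 K) * (n : 𝓞 K) := by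
        have := congrArg (fun z : ℤ => (z : 𝓞 K)) huw
        push_cast at this
        exact this.symm
      rw [h1]
      exact Ideal.add_mem _ (Ideal.mul_mem_left _ _ hqv) (Ideal.mul_mem_left _ _ h)
    · rintro ⟨c, rfl⟩
      push_cast
      exact Ideal.mul_mem_right _ _ hqv
  refine ⟨q, hq, hiff, fun β hβ => ?_⟩
  have h1 : (q : ℤ) ∣ (Ideal.absNorm v.asIdeal : ℤ) := by
    rw [← hiff]
    push_cast
    exact hNm
  have h2 : Ideal.absNorm v.asIdeal ∣ Ideal.absNorm (Ideal.span {β}) :=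
    Ideal.absNorm_dvd_absNorm_of_le ((Ideal.span_singleton_le_iff_mem _).2 hβ)
  rw [Ideal.absNorm_span_singleton] at h2
  exact Int.dvd_natAbs.1 (h1.trans (by exact_mod_cast h2))

theorem nap_sum (w : InfinitePlace K) {ι : Type*} (s : Finset ι)
    (f : ι → mixedEmbedding.mixedSpace K) :
    mixedEmbedding.normAtPlace w (∑ i ∈ s, f i) ≤ ∑ i ∈ s, mixedEmbedding.normAtPlace w (f i) := by
  classical
  induction s using Finset.induction_on with
  | empty => simp
  | insert a s ha ih =>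
    rw [Finset.sum_insert ha, Finset.sum_insert ha]
    exact (mixedEmbedding.normAtPlace_add_le w _ _).trans (by linarith)

/-- integers near a point of the Minkowski space -/
theorem near_int (K : Type) [Field K] [NumberField K] : ∃ C : ℝ, 0 ≤ C ∧
    ∀ t : mixedEmbedding.mixedSpace K, ∃ k : 𝓞 K, ∀ w : InfinitePlace K,
      mixedEmbedding.normAtPlace w (mixedEmbedding K (k : K) - t) ≤ C := by
  classical
  set b := mixedEmbedding.latticeBasis K with hb
  refine ⟨∑ i, ∑ w, mixedEmbedding.normAtPlace w (b i), Finset.sum_nonneg fun i _ =>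
    Finset.sum_nonneg fun w _ => mixedEmbedding.normAtPlace_nonneg _ _, fun t => ?_⟩
  refine ⟨∑ i, ⌊b.repr t i⌋ • RingOfIntegers.basis K i, fun w => ?_⟩
  have h1 : mixedEmbedding K ((∑ i, ⌊b.repr t i⌋ • RingOfIntegers.basis K i : 𝓞 K) : K) =
      ∑ i, (⌊b.repr t i⌋ : ℝ) • b i := by
    have h0 : ((∑ i, ⌊b.repr t i⌋ • RingOfIntegers.basis K i : 𝓞 K) : K) =
        ∑ i, (⌊b.repr t i⌋ : K) * integralBasis K i := by
      push_cast
      refine Finset.sum_congr rfl fun i _ => ?_
      rw [integralBasis_apply, zsmul_eq_mul]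
    rw [h0, map_sum]
    refine Finset.sum_congr rfl fun i _ => ?_
    rw [hb, mixedEmbedding.latticeBasis_apply, map_mul, map_intCast, Int.cast_smul_eq_zsmul ℝ,
      zsmul_eq_mul]
  have h2 : mixedEmbedding K ((∑ i, ⌊b.repr t i⌋ • RingOfIntegers.basis K i : 𝓞 K) : K) - t =
      ∑ i, ((⌊b.repr t i⌋ : ℝ) - b.repr t i) • b i := by
    rw [h1]
    simp only [sub_smul]
    rw [Finset.sum_sub_distrib, b.sum_repr t]
  rw [h2]
  refine (nap_sum w _ _).trans (Finset.sum_le_sum fun i _ => ?_)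
  rw [mixedEmbedding.normAtPlace_smul]
  have h4 : |(⌊b.repr t i⌋ : ℝ) - b.repr t i| ≤ 1 := by
    rw [abs_le]
    have h5 := Int.floor_le (b.repr t i)
    have h6 := Int.lt_floor_add_one (b.repr t i)
    constructor <;> linarith
  refine (mul_le_of_le_one_left (mixedEmbedding.normAtPlace_nonneg _ _) h4).trans ?_
  exact Finset.single_le_sum (f := fun w => mixedEmbedding.normAtPlace w (b i))
    (fun w _ => mixedEmbedding.normAtPlace_nonneg _ _) (Finset.mem_univ w)

end Pool.Agent.H34x.KF
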