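import Pool.Agent.H34x.NT.Main

/-!
# Short vectors in lattices of prime powers of a given size
-/

set_option autoImplicit false

namespace Pool.Agent.H34x.KF

open Finset Filter
open Pool.Agent.H34x.NT (PP short_vectors ev_le)

theorem short_T {m : ℕ} (hm : 0 < m) (b : Fin (m + 1) → ℕ) (hbp : ∀ i, (b i).Prime)
    (hbi : ∀ i j, i ≠ j → b i ≠ b j) (a : Fin (m + 1) → ℝ) {τ2 τ3 : ℝ} (hτ : τ3 < τ2) (hτ20 : 0 ≤ τ2)
    (hτ2 : τ2 < 1) (hτd : τ2 - τ3 ≤ 1) (ha0 : ∀ i, 0 ≤ a i) (ha1 : ∀ i, a i < 1 - τ2)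
    (has : ∑ i, a i = m * (1 - τ2)) :
    ∃ C2 : ℝ, 0 < C2 ∧ ∀ᶠ T : ℝ in atTop, ∃ (e : Fin (m + 1) → ℕ)
      (Z : Matrix (Fin m) (Fin m) ℤ), (∀ i, 1 ≤ e i) ∧
      (∀ i, 4 * b i * T ^ (a i) ≤ (b i : ℝ) ^ (e i)) ∧
      (∀ j i, (b i : ℤ) ^ (e i) ∣ ∑ l, PP m i l * Z j l) ∧
      (∀ j l, |(Z j l : ℝ)| ≤ C2 * T ^ (1 - τ3)) ∧ Z.det ≠ 0 ∧
      ∀ p : ℕ, p.Prime → ⌈(m.factorial : ℝ) * (2 * (m : ℝ) ^ m) ^ m⌉₊ < p →
        (∀ i, ¬ p ∣ b i) → ¬ (p : ℤ) ∣ Z.det := by
  have hmR0 : (0 : ℝ) < m := by exact_mod_cast hm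
  have hmR1 : (1 : ℝ) ≤ m := by exact_mod_cast hm
  have hb2 : ∀ i, 2 ≤ b i := fun i => (hbp i).two_le
  have hcop : ∀ i j, i ≠ j → Nat.Coprime (b i) (b j) := fun i j hij =>
    (Nat.coprime_primes (hbp i) (hbp j)).2 (hbi i j hij)
  set γ : ℝ := (τ2 - τ3) / m with hγ
  have hd : 0 < τ2 - τ3 := by linarith
  have hγ0 : 0 < γ := by positivity
  have hγm : m * γ = τ2 - τ3 := by rw [hγ]; field_simp
  have hγ1 : γ ≤ 1 := by
    have h1 : γ ≤ m * γ := by nlinarith
    rw [hγm] at h1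
    linarith
  obtain ⟨N0, C, Q', hC, hQ', hshort⟩ := short_vectors hm b hb2 hcop hγ0 hγ1
  subst hQ'
  have hb0 : ∀ i, (0 : ℝ) < b i := fun i => by exact_mod_cast (by have := hb2 i; omega : 0 < b i)
  have hblog : ∀ i, 0 < Real.log (b i) := fun i =>
    Real.log_pos (by exact_mod_cast (by have := hb2 i; omega : 1 < b i))
  set c : Fin (m + 1) → ℝ := fun i => Real.log 4 + 2 * Real.log (b i) with hc
  have hlog4 : 0 < Real.log 4 := Real.log_pos (by norm_num)
  have hc0 : ∀ i, 0 < c i := fun i => by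
    have := hblog i
    simp only [hc]
    linarith
  set C1 : ℝ := (∑ i, c i) / m with hC1
  have hC10 : 0 ≤ C1 := div_nonneg (Finset.sum_nonneg fun i _ => (hc0 i).le) hmR0.le
  set C2 : ℝ := C * Real.exp ((1 + m * γ) * C1) with hC2
  have hC20 : 0 < C2 := by positivity
  refine ⟨C2, hC20, ?_⟩
  have e1 : ∀ᶠ T : ℝ in atTop, N0 / (1 - τ2) ≤ Real.log T :=
    Real.tendsto_log_atTop.eventually_ge_atTop _
  have e2 : ∀ᶠ T : ℝ in atTop, ∀ i, c i / (1 - τ2 - a i) ≤ Real.log T :=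
    eventually_all.2 fun i => Real.tendsto_log_atTop.eventually_ge_atTop _
  filter_upwards [e1, e2, eventually_ge_atTop 1] with T h1 h2 h6
  have hT0 : 0 < T := by linarith
  set L : ℝ := Real.log T with hL
  have hL0 : 0 ≤ L := Real.log_nonneg h6
  set e : Fin (m + 1) → ℕ := fun i => ⌈(Real.log (4 * b i) + a i * L) / Real.log (b i)⌉₊ with he
  have hl4 : ∀ i, Real.log (4 * b i) = Real.log 4 + Real.log (b i) := fun i =>
    Real.log_mul (by norm_num) (hb0 i).ne'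
  have he1 : ∀ i, Real.log (4 * b i) + a i * L ≤ e i * Real.log (b i) := by
    intro i
    have := Nat.le_ceil ((Real.log (4 * b i) + a i * L) / Real.log (b i))
    exact (div_le_iff₀ (hblog i)).1 this
  have he2 : ∀ i, (e i : ℝ) * Real.log (b i) ≤ c i + a i * L := by
    intro i
    have h7 : 0 ≤ (Real.log (4 * b i) + a i * L) / Real.log (b i) := by
      apply div_nonneg _ (hblog i).le
      have := mul_nonneg (ha0 i) hL0
      have := hblog i
      rw [hl4]
      linarith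
    have := (Nat.ceil_lt_add_one h7).le
    have h8 : (e i : ℝ) * Real.log (b i) ≤
        ((Real.log (4 * b i) + a i * L) / Real.log (b i) + 1) * Real.log (b i) :=
      mul_le_mul_of_nonneg_right this (hblog i).le
    rw [add_mul, div_mul_cancel₀ _ (hblog i).ne', hl4] at h8
    simp only [hc]
    linarith
  have he0 : ∀ i, 1 ≤ e i := by
    intro i
    by_contra hcon
    have h7 : e i = 0 := by omega
    have h8 := he1 i
    rw [h7] at h8
    have h9 := mul_nonneg (ha0 i) hL0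
    have h10 := hblog i
    rw [hl4] at h8
    simp only [Nat.cast_zero, zero_mul] at h8
    linarith
  have he4 : ∀ i, 4 * b i * T ^ (a i) ≤ (b i : ℝ) ^ (e i) := by
    intro i
    have h7 : (0 : ℝ) < 4 * b i * T ^ (a i) := by
      have := hb0 i
      have := Real.rpow_pos_of_pos hT0 (a i)
      positivity
    rw [← Real.log_le_log_iff h7 (pow_pos (hb0 i) _), Real.log_pow,
      Real.log_mul (by have := hb0 i; positivity) (Real.rpow_pos_of_pos hT0 _).ne',
      Real.log_rpow hT0]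
    exact he1 i
  set N : ℝ := (∑ i, (e i : ℝ) * Real.log (b i)) / m with hN
  have hN1 : (1 - τ2) * L ≤ N := by
    rw [hN, le_div_iff₀ hmR0]
    have h7 : ∑ i, a i * L ≤ ∑ i, (e i : ℝ) * Real.log (b i) := by
      apply Finset.sum_le_sum
      intro i _
      have := he1 i
      have := hblog i
      rw [hl4] at *
      linarith
    rw [← Finset.sum_mul, has] at h7
    linarith
  have hN2 : N ≤ C1 + (1 - τ2) * L := by
    rw [hN, hC1, div_add' _ _ _ hmR0.ne', div_le_div_iff_of_pos_right hmR0]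
    have h7 : ∑ i, (e i : ℝ) * Real.log (b i) ≤ ∑ i, (c i + a i * L) :=
      Finset.sum_le_sum fun i _ => he2 i
    rw [Finset.sum_add_distrib, ← Finset.sum_mul, has] at h7
    linarith
  have hN3 : N0 ≤ N := by
    have h7 := (div_le_iff₀ (by linarith : 0 < 1 - τ2)).1 h1
    linarith
  have hbal : ∀ i, (e i : ℝ) * Real.log (b i) ≤ N := by
    intro i
    have h7 := (div_le_iff₀ (by have := ha1 i; linarith : 0 < 1 - τ2 - a i)).1 (h2 i)
    have h8 := he2 i
    linarith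
  obtain ⟨Z, hZd, hZU, hZ0, hZp⟩ := hshort N e hN3 (by rw [hN]; field_simp) hbal
  refine ⟨e, Z, he0, he4, hZd, fun j l => (hZU j l).trans ?_, hZ0, hZp⟩
  rw [hC2, mul_assoc]
  apply mul_le_mul_of_nonneg_left _ hC.le
  have h7 : T ^ (1 - τ3) = Real.exp ((1 - τ3) * L) := by
    rw [Real.rpow_def_of_pos hT0, mul_comm]
  rw [h7, ← Real.exp_add]
  apply Real.exp_le_exp.2
  have h8 : (1 + m * γ) * N ≤ (1 + m * γ) * (C1 + (1 - τ2) * L) :=
    mul_le_mul_of_nonneg_left hN2 (by positivity)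
  have h9 : (1 + m * γ) * (1 - τ2) ≤ 1 - τ3 := by
    rw [hγm]
    nlinarith [mul_nonneg hd.le hτ20]
  have h10 := mul_le_mul_of_nonneg_right h9 hL0
  nlinarith

end Pool.Agent.H34x.KF
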